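import Mathlib

/-!
Basic covering lemmas: comparison with Hausdorff measure, Vitali sums, null sets.
-/

open MeasureTheory Set Metric Filter Topology
open scoped ENNReal

namespace Pool.Agent.Lib.MP_8115c2_gt.Log

abbrev E (n : ℕ) := EuclideanSpace ℝ (Fin n)

/-- Volume of the unit ball. -/
noncomputable def om (n : ℕ) : ℝ≥0∞ := volume (ball (0 : E n) 1)

theorem om_pos (n : ℕ) : 0 < om n := measure_ball_pos _ _ one_pos

theorem om_ne_top (n : ℕ) : om n ≠ ⊤ := measure_ball_lt_top.ne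

theorem vol_ball {n : ℕ} (x : E n) {r : ℝ} (hr : 0 < r) :
    volume (ball x r) = ENNReal.ofReal (r ^ n) * om n := by
  have := Measure.addHaar_ball_of_pos (volume : Measure (E n)) x hr
  simpa [om] using this

theorem vol_closedBall {n : ℕ} (x : E n) {r : ℝ} (hr : 0 ≤ r) :
    volume (closedBall x r) = ENNReal.ofReal (r ^ n) * om n := by
  have := Measure.addHaar_closedBall (volume : Measure (E n)) x hr
  simpa [om] using this

theorem vitali_sum {n : ℕ} {ι : Type*} (t : Set ι) (x : ι → E n) (r : ι → ℝ) (R : ℝ)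
    (h0 : ∀ a ∈ t, 0 < r a) (hR : ∀ a ∈ t, r a ≤ R) (S : Set (E n))
    (hS : ∀ a ∈ t, ball (x a) (r a) ⊆ S) :
    ∃ u ⊆ t, u.Countable ∧ (∀ a ∈ t, ∃ b ∈ u, x a ∈ ball (x b) (4 * r b)) ∧
      (∑' b : u, ENNReal.ofReal (r b ^ n)) * om n ≤ volume S := by
  obtain ⟨u, hut, hd, hc⟩ := Vitali.exists_disjoint_subfamily_covering_enlargement_ball t x r R hR
    4 (by norm_num)
  have hcount : u.Countable := hd.countable_of_isOpen (fun _ _ => isOpen_ball)
    (fun a ha => nonempty_ball.2 (h0 a (hut ha)))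
  refine ⟨u, hut, hcount, fun a ha => ?_, ?_⟩
  · obtain ⟨b, hb, hab⟩ := hc a ha
    exact ⟨b, hb, hab (mem_ball_self (h0 a ha))⟩
  · rw [← ENNReal.tsum_mul_right]
    calc ∑' b : u, ENNReal.ofReal (r b ^ n) * om n = ∑' b : u, volume (ball (x b) (r b)) := by
          refine tsum_congr fun b => ?_
          rw [vol_ball _ (h0 b (hut b.2))]
      _ = volume (⋃ b ∈ u, ball (x b) (r b)) :=
          (measure_biUnion hcount hd (fun _ _ => measurableSet_ball)).symm
      _ ≤ volume S := measure_mono (iUnion₂_subset fun b hb => hS b (hut hb))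

section Cmp
variable {X : Type*} [MetricSpace X] [MeasurableSpace X] [BorelSpace X]

theorem exists_cover (n : ℕ) (s : Set X) {c : ℝ≥0∞} (hc : μH[n] s < c) {ρ : ℝ} (hρ : 0 < ρ) :
    ∃ t : ℕ → Set X, s ⊆ ⋃ i, t i ∧ (∀ i, ediam (t i) ≤ ENNReal.ofReal ρ) ∧
      ∑' i, (⨆ _ : (t i).Nonempty, ediam (t i) ^ (n : ℝ)) < c := by
  rw [Measure.hausdorffMeasure_apply] at hc
  have h1 := lt_of_le_of_lt (le_iSup₂_of_le (f := fun (r : ℝ≥0∞) (_ : 0 < r) =>
    ⨅ (t : ℕ → Set X) (_ : s ⊆ ⋃ n, t n) (_ : ∀ n, ediam (t n) ≤ r),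
      ∑' i, ⨆ _ : (t i).Nonempty, ediam (t i) ^ (n : ℝ)) (ENNReal.ofReal ρ)
      (ENNReal.ofReal_pos.2 hρ) le_rfl) hc
  simp only [iInf_lt_iff] at h1
  obtain ⟨t, h2, h3, h4⟩ := h1
  exact ⟨t, h2, h3, h4⟩

/-- Comparison of an outer measure with the Hausdorff measure. -/
theorem le_hausdorff (n : ℕ) (ν : OuterMeasure X) (s : Set X) {C : ℝ≥0∞} (hC0 : C ≠ 0)
    (hC : C ≠ ⊤) {ρ : ℝ} (hρ : 0 < ρ)
    (h : ∀ (A : Set X) (d : ℝ), A ⊆ s → 0 ≤ d → d ≤ ρ → (∀ x ∈ A, ∀ y ∈ A, dist x y ≤ d) →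
      ν A ≤ C * ENNReal.ofReal (d ^ n)) :
    ν s ≤ C * μH[n] s := by
  have key : ∀ c, μH[n] s < c → ν s ≤ C * c := by
    intro c hc
    obtain ⟨t, h1, h2, h3⟩ := exists_cover n s hc hρ
    have h4 : s ⊆ ⋃ i, (t i ∩ s) := by
      intro x hx
      obtain ⟨i, hi⟩ := mem_iUnion.1 (h1 hx)
      exact mem_iUnion.2 ⟨i, hi, hx⟩
    calc ν s ≤ ∑' i, ν (t i ∩ s) := (measure_mono h4).trans (measure_iUnion_le _)
      _ ≤ ∑' i, C * (⨆ _ : (t i).Nonempty, ediam (t i) ^ (n : ℝ)) := by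
          refine ENNReal.tsum_le_tsum fun i => ?_
          rcases (t i).eq_empty_or_nonempty with he | hne
          · simp [he]
          · have hfin : ediam (t i) ≠ ⊤ := ne_top_of_le_ne_top ENNReal.ofReal_ne_top (h2 i)
            rw [iSup_pos hne]
            have h5 := h (t i ∩ s) (ediam (t i)).toReal inter_subset_right ENNReal.toReal_nonneg
              (ENNReal.toReal_le_of_le_ofReal hρ.le (h2 i)) (fun x hx y hy => by
                rw [dist_edist]
                exact ENNReal.toReal_mono hfin (edist_le_ediam_of_mem hx.1 hy.1))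
            rw [ENNReal.ofReal_pow ENNReal.toReal_nonneg, ENNReal.ofReal_toReal hfin] at h5
            rwa [ENNReal.rpow_natCast]
      _ = C * ∑' i, (⨆ _ : (t i).Nonempty, ediam (t i) ^ (n : ℝ)) := ENNReal.tsum_mul_left
      _ ≤ C * c := by gcongr
  have h2 : ν s / C ≤ μH[n] s := by
    refine le_of_forall_gt_imp_ge_of_dense fun c hc => ?_
    rw [ENNReal.div_le_iff_le_mul (Or.inl hC0) (Or.inl hC), mul_comm]
    exact key c hc
  rwa [ENNReal.div_le_iff_le_mul (Or.inl hC0) (Or.inl hC), mul_comm] at h2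

/-- A set of finite measure with small density everywhere is null. -/
theorem null_of_small (n : ℕ) (W : Set X) (hW : μH[n] W ≠ ⊤) {ρ : ℝ} (hρ : 0 < ρ)
    (h : ∀ x ∈ W, ∀ d : ℝ, 0 < d → d ≤ ρ →
      μH[n] (W ∩ closedBall x d) ≤ 2⁻¹ * ENNReal.ofReal (d ^ n)) (hn : 0 < n) :
    μH[n] W = 0 := by
  have h1 := le_hausdorff n (μH[n] : Measure X).toOuterMeasure W (C := 2⁻¹) (by simp) (by simp) hρ
    (fun A d hA hd hdρ hAd => by
      rcases A.eq_empty_or_nonempty with rfl | ⟨x, hx⟩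
      · simp
      rcases hd.eq_or_lt with rfl | hd
      · have hAx : A ⊆ {x} := fun y hy => dist_le_zero.1 (hAd y hy x hx)
        have := Measure.nullSingletonClass_hausdorff X (d := (n : ℝ)) (by exact_mod_cast hn)
        have h0 : μH[n] A = 0 := measure_mono_null hAx (measure_singleton x)
        change μH[n] A ≤ _
        simp [h0]
      · change μH[n] A ≤ _
        refine le_trans (measure_mono ?_) (h x (hA hx) d hd hdρ)
        exact fun y hy => ⟨hA hy, mem_closedBall.2 (hAd y hy x hx)⟩)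
  change μH[n] W ≤ 2⁻¹ * μH[n] W at h1
  by_contra h0
  have h2 : 2⁻¹ * μH[n] W < μH[n] W := by
    rw [mul_comm, ← div_eq_mul_inv]
    exact ENNReal.half_lt_self h0 hW
  exact absurd h1 (not_le.2 h2)

/-- Lipschitz images of null sets are Lebesgue null. -/
theorem vol_image_null {n : ℕ} (f : X → E n) {K : NNReal} (hf : LipschitzWith K f) (A : Set X)
    (hA : μH[n] A = 0) : volume (f '' A) = 0 := by
  have h1 : μH[n] (f '' A) = 0 := by
    have := hf.hausdorffMeasure_image_le (d := (n : ℝ)) (Nat.cast_nonneg n) A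
    rw [hA, mul_zero] at this
    exact le_antisymm this zero_le
  have h2 : (volume : Measure (E n)) ≪ μH[n] := Measure.absolutelyContinuous_isAddHaarMeasure _ _
  exact h2 h1

/-- Points with many well separated preimages form a small set. -/
theorem vol_many {n : ℕ} (f : X → E n) {K : ℝ} (hK : 0 ≤ K)
    (hf : ∀ x y, dist (f x) (f y) ≤ K * dist x y) (Y : Set X) (hY : μH[n] Y ≠ ⊤) (p : ℕ)
    {η : ℝ} (hη : 0 < η) :
    (p : ℝ≥0∞) * volume {z | ∃ s : Finset X, s.card = p ∧ (∀ y ∈ s, y ∈ Y ∧ f y = z) ∧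
      ∀ y ∈ s, ∀ y' ∈ s, y ≠ y' → η < dist y y'} ≤
      ENNReal.ofReal (K ^ n) * om n * (μH[n] Y + 1) := by
  classical
  obtain ⟨t, h1, h2, h3⟩ := exists_cover n Y (ENNReal.lt_add_right hY one_ne_zero) hη
  set B : ℕ → Set (E n) := fun i => closure (f '' t i) with hB
  have hBm : ∀ i, MeasurableSet (B i) := fun i => isClosed_closure.measurableSet
  have hBv : ∀ i, volume (B i) ≤ ENNReal.ofReal (K ^ n) * om n *
      (⨆ _ : (t i).Nonempty, ediam (t i) ^ (n : ℝ)) := by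
    intro i
    rcases (t i).eq_empty_or_nonempty with he | ⟨x, hx⟩
    · simp [hB, he]
    · have hfin : ediam (t i) ≠ ⊤ := ne_top_of_le_ne_top ENNReal.ofReal_ne_top (h2 i)
      rw [iSup_pos ⟨x, hx⟩]
      have h5 : B i ⊆ closedBall (f x) (K * (ediam (t i)).toReal) := by
        refine closure_minimal ?_ isClosed_closedBall
        rintro _ ⟨y, hy, rfl⟩
        refine mem_closedBall.2 ((hf y x).trans ?_)
        gcongr
        rw [dist_edist]
        exact ENNReal.toReal_mono hfin (edist_le_ediam_of_mem hy hx)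
      refine (measure_mono h5).trans ?_
      rw [vol_closedBall _ (by positivity), mul_pow, ENNReal.ofReal_mul (by positivity),
        ENNReal.ofReal_pow ENNReal.toReal_nonneg, ENNReal.ofReal_toReal hfin,
        ENNReal.rpow_natCast]
      exact le_of_eq (by ring)
  set g : E n → ℝ≥0∞ := fun z => ∑' i, (B i).indicator 1 z with hg
  have hgm : Measurable g := Measurable.tsum fun i => measurable_one.indicator (hBm i)
  have hsub : {z | ∃ s : Finset X, s.card = p ∧ (∀ y ∈ s, y ∈ Y ∧ f y = z) ∧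
      ∀ y ∈ s, ∀ y' ∈ s, y ≠ y' → η < dist y y'} ⊆ {z | (p : ℝ≥0∞) ≤ g z} := by
    rintro z ⟨s, hs, hs1, hs2⟩
    have hch : ∀ y : X, ∃ i : ℕ, y ∈ Y → y ∈ t i := by
      intro y
      by_cases hy : y ∈ Y
      · obtain ⟨i, hi⟩ := mem_iUnion.1 (h1 hy)
        exact ⟨i, fun _ => hi⟩
      · exact ⟨0, fun h => absurd h hy⟩
    choose c hc using hch
    have hinj : Set.InjOn c s := by
      intro y hy y' hy' hcc
      by_contra hne
      have h6 := hs2 y hy y' hy' hne
      have h7 : edist y y' ≤ ENNReal.ofReal η :=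
        (edist_le_ediam_of_mem (hc y (hs1 y hy).1) (hcc ▸ hc y' (hs1 y' hy').1)).trans (h2 _)
      rw [edist_dist, ENNReal.ofReal_le_ofReal_iff hη.le] at h7
      linarith
    change (p : ℝ≥0∞) ≤ ∑' i, (B i).indicator 1 z
    calc (p : ℝ≥0∞) = ∑ i ∈ s.image c, (B i).indicator (1 : E n → ℝ≥0∞) z := by
          rw [Finset.sum_congr rfl (g := fun _ => (1 : ℝ≥0∞))]
          · simp [Finset.card_image_of_injOn hinj, hs]
          · intro i hi
            obtain ⟨y, hy, rfl⟩ := Finset.mem_image.1 hi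
            have : z ∈ B (c y) := subset_closure ⟨y, hc y (hs1 y hy).1, (hs1 y hy).2⟩
            simp [this]
      _ ≤ _ := ENNReal.sum_le_tsum _
  calc _ ≤ (p : ℝ≥0∞) * volume {z | (p : ℝ≥0∞) ≤ g z} := by gcongr
    _ ≤ ∫⁻ z, g z := mul_meas_ge_le_lintegral hgm _
    _ = ∑' i, volume (B i) := by
        rw [hg, lintegral_tsum fun i => (measurable_one.indicator (hBm i)).aemeasurable]
        exact tsum_congr fun i => lintegral_indicator_one (hBm i)
    _ ≤ ∑' i, ENNReal.ofReal (K ^ n) * om n * (⨆ _ : (t i).Nonempty, ediam (t i) ^ (n : ℝ)) :=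
        ENNReal.tsum_le_tsum hBv
    _ ≤ _ := by rw [ENNReal.tsum_mul_left]; gcongr

/-- Points of the target with infinitely many preimages form a null set. -/
theorem vol_infinite {n : ℕ} (f : X → E n) {K : ℝ} (hK : 0 ≤ K)
    (hf : ∀ x y, dist (f x) (f y) ≤ K * dist x y) (Y : Set X) (hY : μH[n] Y ≠ ⊤) :
    volume {z | (Y ∩ f ⁻¹' {z}).Infinite} = 0 := by
  classical
  set C := ENNReal.ofReal (K ^ n) * om n * (μH[n] Y + 1) with hC
  have hCt : C ≠ ⊤ := ENNReal.mul_ne_top (ENNReal.mul_ne_top ENNReal.ofReal_ne_top (om_ne_top n))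
    (ENNReal.add_ne_top.2 ⟨hY, ENNReal.one_ne_top⟩)
  have key : ∀ p : ℕ, (p : ℝ≥0∞) * volume {z | (Y ∩ f ⁻¹' {z}).Infinite} ≤ C := by
    intro p
    set Z : ℕ → Set (E n) := fun j => {z | ∃ s : Finset X, s.card = p ∧
      (∀ y ∈ s, y ∈ Y ∧ f y = z) ∧ ∀ y ∈ s, ∀ y' ∈ s, y ≠ y' → 1 / ((j : ℝ) + 1) < dist y y'}
      with hZ
    have hmono : Monotone Z := by
      intro i j hij z ⟨s, h1, h2, h3⟩
      refine ⟨s, h1, h2, fun y hy y' hy' hne => lt_of_le_of_lt ?_ (h3 y hy y' hy' hne)⟩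
      exact Nat.one_div_le_one_div hij
    have hsub : {z | (Y ∩ f ⁻¹' {z}).Infinite} ⊆ ⋃ j, Z j := by
      intro z hz
      obtain ⟨s, hs, hcard⟩ := Set.Infinite.exists_subset_card_eq hz p
      have hev : ∀ᶠ j : ℕ in atTop, ∀ y ∈ s, ∀ y' ∈ s, y ≠ y' → 1 / ((j : ℝ) + 1) < dist y y' := by
        rw [Filter.eventually_all_finset]
        intro y _
        rw [Filter.eventually_all_finset]
        intro y' _
        by_cases hne : y = y'
        · simp [hne]
        · have := tendsto_one_div_add_atTop_nhds_zero_nat (𝕜 := ℝ).eventually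
            (gt_mem_nhds (dist_pos.2 hne))
          filter_upwards [this] with j hj _ using hj
      obtain ⟨j, hj⟩ := hev.exists
      exact mem_iUnion.2 ⟨j, s, hcard, fun y hy => ⟨(hs hy).1, (hs hy).2⟩, hj⟩
    calc _ ≤ (p : ℝ≥0∞) * volume (⋃ j, Z j) := by gcongr
      _ = ⨆ j, (p : ℝ≥0∞) * volume (Z j) := by rw [hmono.measure_iUnion, ENNReal.mul_iSup]
      _ ≤ C := iSup_le fun j => vol_many f hK hf Y hY p Nat.one_div_pos_of_nat
  by_contra h0
  obtain ⟨p, hp⟩ := ENNReal.exists_nat_mul_gt h0 hCt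
  exact absurd (key p) (not_le.2 hp)

end Cmp

/-- Points of infinite upper density of a finite measure form a null set. -/
theorem vol_dens {n : ℕ} (ν : Measure (E n)) [IsFiniteMeasure ν] :
    ∀ᵐ z : E n, ∃ M : ℕ, ∃ ρ > (0 : ℝ), ∀ r : ℝ, 0 < r → r < ρ →
      ν (ball z r) ≤ M * ENNReal.ofReal (r ^ n) := by
  filter_upwards [Besicovitch.ae_tendsto_rnDeriv ν volume, Measure.rnDeriv_lt_top ν volume]
    with z h1 h2
  obtain ⟨M, hM⟩ := ENNReal.exists_nat_gt (r := (ν.rnDeriv volume z + 1) * om n)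
    (ENNReal.mul_ne_top (ENNReal.add_ne_top.2 ⟨h2.ne, ENNReal.one_ne_top⟩) (om_ne_top n))
  have h3 := h1.eventually (gt_mem_nhds (ENNReal.lt_add_right h2.ne one_ne_zero))
  obtain ⟨ρ, hρ, h4⟩ := (nhdsGT_basis (0 : ℝ)).eventually_iff.1 h3
  refine ⟨M, ρ, hρ, fun r hr hrρ => ?_⟩
  have h5 := h4 ⟨hr, hrρ⟩
  have h6 : volume (closedBall z r) ≠ 0 := (measure_closedBall_pos _ _ hr).ne'
  have h7 : volume (closedBall z r) ≠ ⊤ := measure_closedBall_lt_top.ne
  rw [ENNReal.div_lt_iff (Or.inl h6) (Or.inl h7), vol_closedBall _ hr.le] at h5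
  calc ν (ball z r) ≤ ν (closedBall z r) := measure_mono ball_subset_closedBall
    _ ≤ (ν.rnDeriv volume z + 1) * (ENNReal.ofReal (r ^ n) * om n) := h5.le
    _ = (ν.rnDeriv volume z + 1) * om n * ENNReal.ofReal (r ^ n) := by ring
    _ ≤ _ := by gcongr

end Pool.Agent.Lib.MP_8115c2_gt.Log
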