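import Pool.Agent.Lib.MP_8115c2_gt.Log.Struct

/-!
Volume of the image of a Lipschitz graph.
-/

open MeasureTheory Set Metric Filter Topology
open scoped ENNReal Pointwise

namespace Pool.Agent.Lib.MP_8115c2_gt.Log

variable {F : Type} [NormedAddCommGroup F] [NormedSpace ℝ F] [FiniteDimensional ℝ F]
  [MeasurableSpace F] [BorelSpace F] {n : ℕ}

/-- A neighbourhood of the image under `T` of a ball in the range of `L`. -/
def DD (T : F →L[ℝ] E n) (L : E n →L[ℝ] F) : Set (E n) :=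
  {z | ∃ x : E n, ‖L x‖ ≤ 2 ∧ ‖z - T (L x)‖ ≤ 1}

omit [FiniteDimensional ℝ F] in
theorem piece_vol (T T₀ : F →L[ℝ] E n) {τ : ℝ} (hτ : 0 ≤ τ) (hT : ∀ w, ‖T w‖ ≤ τ * ‖w‖)
    (hTT : ∀ w, ‖T w - T₀ w‖ ≤ 4⁻¹ * ‖w‖) (L : E n →L[ℝ] F) {C : ℝ≥0∞} (hC0 : C ≠ 0) (hC : C ≠ ⊤)
    (hL : volume (DD T₀ L) ≤ C) (P : Set F)
    (hP : ∀ u ∈ P, ∀ u' ∈ P, ‖u - u' - L (T u - T u')‖ ≤ (2 * (τ + 1) ^ 2)⁻¹ * ‖T u - T u'‖) :
    volume (T '' P) ≤ C * μH[n] P := by
  refine le_hausdorff n (OuterMeasure.comap T (volume : Measure (E n)).toOuterMeasure) P hC0 hC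
    one_pos fun A d hA hd _ hAd => ?_
  rcases A.eq_empty_or_nonempty with rfl | ⟨u₀, hu₀⟩
  · simp
  have hsub : T '' A ⊆ T u₀ +ᵥ (d • DD T₀ L) := by
    rintro _ ⟨u, hu, rfl⟩
    have h1 : ‖u - u₀‖ ≤ d := by rw [← dist_eq_norm]; exact hAd u hu u₀ hu₀
    have h2 := hP u (hA hu) u₀ (hA hu₀)
    rw [← map_sub] at h2
    set w := u - u₀ with hw
    have h3 : ‖T w‖ ≤ τ * d := (hT w).trans (by gcongr)
    have hη : (2 * (τ + 1) ^ 2)⁻¹ * τ * (τ + 1) ≤ 2⁻¹ := by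
      rw [mul_assoc, inv_mul_le_iff₀ (by positivity)]
      nlinarith
    have hη0 : 0 ≤ (2 * (τ + 1) ^ 2)⁻¹ * τ := by positivity
    set η := (2 * (τ + 1) ^ 2)⁻¹ * τ with hηd
    have h4 : ‖w - L (T w)‖ ≤ η * d := by
      refine h2.trans ?_
      rw [hηd, mul_assoc]
      gcongr
    have h5 : ‖L (T w)‖ ≤ 2 * d := by
      have h6 : ‖L (T w)‖ ≤ ‖w‖ + ‖w - L (T w)‖ := by
        calc ‖L (T w)‖ = ‖w - (w - L (T w))‖ := by congr 1; abel
          _ ≤ _ := norm_sub_le _ _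
      have h7 : η * d ≤ 1 * d := by gcongr; nlinarith
      linarith
    have h6 : ‖T w - T₀ (L (T w))‖ ≤ d := by
      have h7 : T w - T₀ (L (T w)) = T (w - L (T w)) + (T (L (T w)) - T₀ (L (T w))) := by
        rw [T.map_sub w (L (T w))]; abel
      have h8 : ‖T (w - L (T w))‖ ≤ τ * (η * d) := (hT _).trans (by gcongr)
      have h9 := hTT (L (T w))
      have h10 : τ * η * d ≤ 2⁻¹ * d := by gcongr; nlinarith
      rw [h7]
      refine (norm_add_le _ _).trans ?_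
      nlinarith
    refine ⟨T w, ?_, by simp [hw]⟩
    rcases hd.eq_or_lt with rfl | hd'
    · have h7 : T w = 0 := norm_le_zero_iff.1 (by simpa using h3)
      exact ⟨0, ⟨0, by simp, by simp⟩, by simp [h7]⟩
    · refine ⟨d⁻¹ • T w, ⟨d⁻¹ • T w, ?_, ?_⟩, by simp [smul_smul, hd'.ne']⟩
      · rw [map_smul, norm_smul, norm_inv, Real.norm_eq_abs, abs_of_pos hd', inv_mul_le_iff₀ hd']
        linarith
      · rw [map_smul, map_smul, ← smul_sub, norm_smul, norm_inv, Real.norm_eq_abs, abs_of_pos hd',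
          inv_mul_le_iff₀ hd']
        linarith
  calc volume (T '' A) ≤ volume (T u₀ +ᵥ (d • DD T₀ L)) := measure_mono hsub
    _ = ENNReal.ofReal (d ^ n) * volume (DD T₀ L) := by
        rw [measure_vadd, Measure.addHaar_smul]
        simp [abs_of_nonneg hd]
    _ ≤ _ := by rw [mul_comm]; gcongr

theorem graph_vol (T T₀ : F →L[ℝ] E n) (hTT : ∀ w, ‖T w - T₀ w‖ ≤ 4⁻¹ * ‖w‖) {C : ℝ≥0∞}
    (hC0 : C ≠ 0) (hC : C ≠ ⊤) (hL : ∀ L : E n →L[ℝ] F, volume (DD T₀ L) ≤ C) (Γ : Set F)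
    (hΓm : MeasurableSet Γ) (hΓ : Graph T Γ) : volume (T '' Γ) ≤ C * μH[n] Γ := by
  obtain ⟨s, hs, hΓ⟩ := hΓ
  have hinj : InjOn T Γ := by
    intro x hx y hy hxy
    have h1 := hΓ x hx y hy
    rw [map_sub, hxy, sub_self, norm_zero] at h1
    have h2 : ‖x - y‖ ≤ 0 := by
      by_contra hc
      push Not at hc
      nlinarith
    exact sub_eq_zero.1 (norm_le_zero_iff.1 h2)
  set φ : E n → F := Function.invFunOn T Γ with hφ
  have hφT : ∀ u ∈ Γ, φ (T u) = u := fun u hu => hinj.leftInvOn_invFunOn hu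
  have hlip : LipschitzOnWith ⟨s⁻¹, by positivity⟩ φ (T '' Γ) := by
    refine LipschitzOnWith.of_dist_le_mul ?_
    rintro _ ⟨x, hx, rfl⟩ _ ⟨y, hy, rfl⟩
    rw [hφT x hx, hφT y hy, dist_eq_norm, dist_eq_norm, ← map_sub]
    exact (le_inv_mul_iff₀ hs).2 (hΓ x hx y hy)
  have hae := hlip.ae_differentiableWithinAt_of_mem (μ := (volume : Measure (E n)))
  set S : Set (E n) := {x ∈ T '' Γ | DifferentiableWithinAt ℝ φ (T '' Γ) x} with hS
  set τ := ‖T‖ with hτ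
  obtain ⟨t, A, hd, hm, hcov, happ, -⟩ :=
    exists_partition_approximatesLinearOn_of_hasFDerivWithinAt φ S
      (fun x => fderivWithin ℝ φ (T '' Γ) x)
      (fun x hx => hx.2.hasFDerivWithinAt.mono fun y hy => hy.1)
      (fun _ => ⟨(2 * (τ + 1) ^ 2)⁻¹, by positivity⟩)
      (fun _ h => by
        have h1 := congrArg NNReal.toReal h
        have h2 : (0 : ℝ) < (2 * (τ + 1) ^ 2)⁻¹ := by positivity
        exact h2.ne' h1)
  set P : ℕ → Set F := fun i => Γ ∩ T ⁻¹' (S ∩ t i) with hP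
  have hPi : ∀ i, volume (T '' P i) ≤ C * μH[n] (Γ ∩ T ⁻¹' t i) := by
    intro i
    refine (piece_vol T T₀ (norm_nonneg T) T.le_opNorm hTT (A i) hC0 hC (hL _) (P i) ?_).trans ?_
    · intro u hu u' hu'
      have h1 := happ i (T u) hu.2 (T u') hu'.2
      rw [hφT u hu.1, hφT u' hu'.1] at h1
      exact h1
    · gcongr
      exact fun u hu => ⟨hu.1, hu.2.2⟩
  have hsub : T '' Γ ⊆ {x | ¬ (x ∈ T '' Γ → DifferentiableWithinAt ℝ φ (T '' Γ) x)} ∪
      ⋃ i, T '' P i := by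
    rintro _ ⟨u, hu, rfl⟩
    by_cases h : DifferentiableWithinAt ℝ φ (T '' Γ) (T u)
    · have h1 : T u ∈ S := ⟨⟨u, hu, rfl⟩, h⟩
      obtain ⟨i, hi⟩ := mem_iUnion.1 (hcov h1)
      exact Or.inr (mem_iUnion.2 ⟨i, u, ⟨hu, h1, hi⟩, rfl⟩)
    · exact Or.inl fun h' => h (h' ⟨u, hu, rfl⟩)
  calc volume (T '' Γ) ≤ 0 + volume (⋃ i, T '' P i) := by
        rw [← ae_iff.1 hae]
        exact (measure_mono hsub).trans (measure_union_le _ _)
    _ ≤ ∑' i, C * μH[n] (Γ ∩ T ⁻¹' t i) := by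
        rw [zero_add]
        exact (measure_iUnion_le _).trans (ENNReal.tsum_le_tsum hPi)
    _ = C * μH[n] (⋃ i, Γ ∩ T ⁻¹' t i) := by
        rw [ENNReal.tsum_mul_left, measure_iUnion]
        · intro i j hij
          exact Disjoint.mono inter_subset_right inter_subset_right ((hd hij).preimage T)
        · exact fun i => hΓm.inter (T.continuous.measurable (hm i))
    _ ≤ _ := by
        gcongr
        exact iUnion_subset fun i => inter_subset_left

theorem rect_vol (T T₀ : F →L[ℝ] E n) (hTT : ∀ w, ‖T w - T₀ w‖ ≤ 4⁻¹ * ‖w‖) {C : ℝ≥0∞}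
    (hC0 : C ≠ 0) (hC : C ≠ ⊤) (hL : ∀ L : E n →L[ℝ] F, volume (DD T₀ L) ≤ C) (Y Z : Set F)
    (hY : MeasurableSet Y) (Γ : ℕ → Set F) (hcov : Y ⊆ Z ∪ ⋃ i, Γ i) (hZ : volume (T '' Z) = 0)
    (hΓ : ∀ i, Graph T (Γ i)) : volume (T '' Y) ≤ C * μH[n] Y := by
  set Δ : ℕ → Set F := fun i => Y ∩ disjointed (fun i => closure (Γ i)) i with hΔ
  have hm : ∀ i, MeasurableSet (Δ i) := fun i =>
    hY.inter (MeasurableSet.disjointed (fun i => isClosed_closure.measurableSet) i)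
  have hsub : T '' Y ⊆ T '' Z ∪ ⋃ i, T '' Δ i := by
    rintro _ ⟨y, hy, rfl⟩
    rcases hcov hy with h | h
    · exact Or.inl ⟨y, h, rfl⟩
    · have h1 : y ∈ ⋃ i, closure (Γ i) := iUnion_mono (fun i => subset_closure) h
      rw [← iUnion_disjointed] at h1
      obtain ⟨i, hi⟩ := mem_iUnion.1 h1
      exact Or.inr (mem_iUnion.2 ⟨i, y, ⟨hy, hi⟩, rfl⟩)
  calc volume (T '' Y) ≤ 0 + volume (⋃ i, T '' Δ i) := by
        rw [← hZ]
        exact (measure_mono hsub).trans (measure_union_le _ _)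
    _ ≤ ∑' i, C * μH[n] (Δ i) := by
        rw [zero_add]
        refine (measure_iUnion_le _).trans (ENNReal.tsum_le_tsum fun i => ?_)
        exact graph_vol T T₀ hTT hC0 hC hL _ (hm i)
          ((hΓ i).closure.mono (inter_subset_right.trans (disjointed_subset _ i)))
    _ = C * μH[n] (⋃ i, Δ i) := by
        rw [ENNReal.tsum_mul_left, measure_iUnion _ hm]
        intro i j hij
        exact Disjoint.mono inter_subset_right inter_subset_right (disjoint_disjointed _ hij)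
    _ ≤ _ := by
        gcongr
        exact iUnion_subset fun i => inter_subset_left

end Pool.Agent.Lib.MP_8115c2_gt.Log
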