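import Pool.Agent.Lib.MP_8115c2_gt.Log.Vol

/-!
Pisier's bound for the first level of a bounded kernel of low rank on the discrete cube.
-/

open MeasureTheory Set Metric Filter Topology
open scoped ENNReal

namespace Pool.Agent.Lib.MP_8115c2_gt.Log

theorem norm_sinh_le {s : ℂ} (h : |s.re| ≤ 1) : ‖Complex.I * Complex.sinh s / 2‖ ≤ 1 := by
  have h1 : ‖Complex.sinh s‖ ≤ (Real.exp s.re + Real.exp (-s.re)) / 2 := by
    rw [Complex.sinh, norm_div, Complex.norm_two]
    gcongr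
    refine (norm_sub_le _ _).trans (le_of_eq ?_)
    rw [Complex.norm_exp, Complex.norm_exp, Complex.neg_re]
  have h2 : Real.exp s.re + Real.exp (-s.re) ≤ 4 := by
    have h3 : Real.exp 1 ≤ 3 := Real.exp_one_lt_d9.le.trans (by norm_num)
    rcases le_total 0 s.re with h4 | h4
    · have h5 : Real.exp s.re ≤ Real.exp 1 := Real.exp_le_exp.2 (le_of_abs_le h)
      have h6 : Real.exp (-s.re) ≤ 1 := Real.exp_le_one_iff.2 (by linarith)
      linarith
    · have h5 : Real.exp (-s.re) ≤ Real.exp 1 := Real.exp_le_exp.2 (by linarith [neg_le_of_abs_le h])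
      have h6 : Real.exp s.re ≤ 1 := Real.exp_le_one_iff.2 h4
      linarith
  rw [norm_div, norm_mul, Complex.norm_I, Complex.norm_two]
  linarith

theorem deriv_bound (p : ℂ → ℂ) (hp : Differentiable ℂ p) {b : ℝ} (hb : Real.exp 1 ≤ b)
    (h1 : ∀ ρ : ℝ, |ρ| ≤ 1 → ‖p ρ‖ ≤ 1) (h2 : ∀ ρ : ℂ, ‖ρ‖ ≤ 1 → ‖p ρ‖ ≤ b) :
    ‖deriv p 0‖ ≤ 6 * Real.log b := by
  set ψ : ℂ → ℂ := fun s => Complex.I * Complex.sinh s / 2 with hψ
  have hψd : Differentiable ℂ ψ := by rw [hψ]; fun_prop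
  have hb0 : 0 < b := (Real.exp_pos 1).trans_le hb
  have hlog : 1 ≤ Real.log b := (Real.le_log_iff_exp_le hb0).2 hb
  have key : ∀ c : ℂ, (c = 1 ∨ c = -1) → ∀ s : ℂ, 0 ≤ s.re → s.re ≤ 1 →
      ‖p (c * ψ s)‖ ≤ b ^ s.re := by
    intro c hc s hs0 hs1
    have hc1 : ‖c‖ = 1 := by rcases hc with rfl | rfl <;> simp
    have hd : Differentiable ℂ fun s => p (c * ψ s) := hp.comp (hψd.const_mul c)
    have hbd : ∀ s : ℂ, |s.re| ≤ 1 → ‖p (c * ψ s)‖ ≤ b := fun s hs =>
      h2 _ (by rw [norm_mul, hc1, one_mul]; exact norm_sinh_le hs)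
    have h3 := Complex.HadamardThreeLines.norm_le_interp_of_mem_verticalClosedStrip'
      (f := fun s => p (c * ψ s)) (z := s) (a := 1) (b := b) (l := 0) (u := 1) one_pos
      ⟨hs0, hs1⟩ hd.diffContOnCl
      ⟨b, by
        rintro _ ⟨z, hz, rfl⟩
        exact hbd z (abs_le.2 ⟨by linarith [hz.1], hz.2⟩)⟩
      (fun z hz => by
        have h4 : z = (z.im : ℂ) * Complex.I := by
          apply Complex.ext <;> simp
          exact hz
        obtain ⟨c', hc', hc''⟩ : ∃ c' : ℝ, c = c' ∧ |c'| = 1 := by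
          rcases hc with rfl | rfl
          · exact ⟨1, by simp, by simp⟩
          · exact ⟨-1, by simp, by simp⟩
        have h5 : c * ψ z = ((c' * (-Real.sin z.im / 2) : ℝ) : ℂ) := by
          rw [hψ, hc']
          simp only
          rw [h4, Complex.sinh_mul_I]
          push_cast
          simp only [Complex.mul_im, Complex.ofReal_re, Complex.I_im, mul_one, Complex.ofReal_im,
            Complex.I_re, mul_zero, add_zero]
          linear_combination (c' * Complex.sin z.im / 2) * Complex.I_mul_I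
        rw [h5]
        refine h1 _ ?_
        rw [abs_mul, hc'', one_mul, abs_div, abs_neg, abs_two]
        linarith [Real.abs_sin_le_one z.im])
      (fun z hz => hbd z (by rw [show z.re = 1 from hz]; simp))
    simpa using h3
  have hcirc : ∀ z ∈ sphere (0 : ℂ) (1 / Real.log b), ‖p (ψ z)‖ ≤ 3 := by
    intro z hz
    have h3 : |z.re| ≤ 1 / Real.log b := by
      rw [← mem_sphere_zero_iff_norm.1 hz]; exact Complex.abs_re_le_norm z
    have h4 : 1 / Real.log b ≤ 1 := by rw [div_le_one (by linarith)]; exact hlog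
    have h5 : b ^ |z.re| ≤ 3 := by
      rw [Real.rpow_def_of_pos hb0]
      refine le_trans (Real.exp_le_exp.2 ?_) (Real.exp_one_lt_d9.le.trans (by norm_num))
      rw [le_div_iff₀ (by linarith)] at h3
      linarith
    refine le_trans ?_ h5
    rcases le_total 0 z.re with h6 | h6
    · have := key 1 (Or.inl rfl) z h6 (by linarith [le_abs_self z.re])
      rwa [one_mul, ← abs_of_nonneg h6] at this
    · have := key (-1) (Or.inr rfl) (-z) (by simpa using h6)
        (by rw [Complex.neg_re]; linarith [neg_le_abs z.re])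
      rw [Complex.neg_re, ← abs_of_nonpos h6] at this
      have h7 : -1 * ψ (-z) = ψ z := by
        simp only [hψ, Complex.sinh_neg]; ring
      rwa [h7] at this
  have h3 := Complex.norm_deriv_le_of_forall_mem_sphere_norm_le (f := fun z => p (ψ z)) (c := 0)
    (R := 1 / Real.log b) (by positivity) (hp.comp hψd).diffContOnCl hcirc
  have h4 : HasDerivAt ψ (Complex.I / 2) 0 := by
    have := ((Complex.hasDerivAt_sinh 0).const_mul Complex.I).div_const 2
    simpa using this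
  have h5 : HasDerivAt (fun z => p (ψ z)) (deriv p 0 * (Complex.I / 2)) 0 := by
    have h6 : ψ 0 = 0 := by simp [hψ]
    have h7 : HasDerivAt p (deriv p 0) (ψ 0) := by rw [h6]; exact (hp 0).hasDerivAt
    exact h7.comp 0 h4
  rw [h5.deriv, norm_mul, norm_div, Complex.norm_I, Complex.norm_two, div_div_eq_mul_div,
    div_one] at h3
  linarith

theorem sg_sq (b : Bool) : sg b * sg b = 1 := by cases b <;> simp [sg]

theorem abs_sg (b : Bool) : |sg b| = 1 := by cases b <;> simp [sg]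

variable {n : ℕ}

/-- The noise kernel. -/
noncomputable def KK (ρ : ℂ) (ε ε' : Fin n → Bool) : ℂ :=
  ∏ j, (1 + ρ * (sg (ε j) * sg (ε' j) : ℝ))

theorem sum_prod_bool (f : Fin n → Bool → ℂ) :
    ∑ ε : Fin n → Bool, ∏ j, f j (ε j) = ∏ j, (f j true + f j false) := by
  have := Finset.prod_univ_sum (fun _ : Fin n => (Finset.univ : Finset Bool)) f
  rw [Fintype.piFinset_univ] at this
  rw [← this]
  simp

theorem norm_KK_real {ρ : ℝ} (hρ : |ρ| ≤ 1) (ε ε' : Fin n → Bool) :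
    ((‖KK ρ ε ε'‖ : ℝ) : ℂ) = KK ρ ε ε' := by
  rw [KK, norm_prod, Complex.ofReal_prod]
  refine Finset.prod_congr rfl fun j _ => ?_
  have h1 : (1 + (ρ : ℂ) * (sg (ε j) * sg (ε' j) : ℝ)) = ((1 + ρ * (sg (ε j) * sg (ε' j)) : ℝ) : ℂ) := by
    push_cast; rfl
  rw [h1, Complex.norm_real, Real.norm_eq_abs, abs_of_nonneg]
  have h2 : |ρ * (sg (ε j) * sg (ε' j))| ≤ 1 := by
    rw [abs_mul, abs_mul, abs_sg, abs_sg]; simpa using hρ
  linarith [neg_le_of_abs_le h2]

theorem sum_norm_KK {ρ : ℝ} (hρ : |ρ| ≤ 1) (ε : Fin n → Bool) :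
    ∑ ε', ‖KK ρ ε ε'‖ = 2 ^ n := by
  have h1 : ((∑ ε', ‖KK ρ ε ε'‖ : ℝ) : ℂ) = ((2 ^ n : ℝ) : ℂ) := by
    rw [Complex.ofReal_sum]
    simp_rw [norm_KK_real hρ, KK]
    rw [sum_prod_bool fun j b => 1 + (ρ : ℂ) * (sg (ε j) * sg b : ℝ)]
    have : ∀ j, (1 + (ρ : ℂ) * (sg (ε j) * sg true : ℝ)) + (1 + (ρ : ℂ) * (sg (ε j) * sg false : ℝ))
        = 2 := by
      intro j
      simp only [sg, if_true, Bool.false_eq_true, if_false]
      push_cast
      ring
    simp_rw [this]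
    simp
  exact_mod_cast h1

theorem KK_KK (ρ : ℂ) (ε' ε'' : Fin n → Bool) :
    ∑ ε, KK ρ ε ε' * (starRingEnd ℂ) (KK ρ ε ε'') = 2 ^ n * KK ((‖ρ‖ ^ 2 : ℝ) : ℂ) ε' ε'' := by
  simp_rw [KK, map_prod, ← Finset.prod_mul_distrib]
  rw [sum_prod_bool fun j b => (1 + ρ * (sg b * sg (ε' j) : ℝ)) *
    (starRingEnd ℂ) (1 + ρ * (sg b * sg (ε'' j) : ℝ))]
  have h2 : (2 : ℂ) ^ n = ∏ _j : Fin n, 2 := by simp
  rw [h2, ← Finset.prod_mul_distrib]
  refine Finset.prod_congr rfl fun j _ => ?_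
  have h3 : ((‖ρ‖ ^ 2 : ℝ) : ℂ) = ρ * (starRingEnd ℂ) ρ := by
    rw [Complex.mul_conj, Complex.normSq_eq_norm_sq]
  rw [h3]
  simp only [map_add, map_one, map_mul, Complex.conj_ofReal, show sg true = 1 from rfl,
    show sg false = -1 from rfl]
  push_cast
  ring

theorem sum_norm_apply {ρ : ℂ} (hρ : ‖ρ‖ ≤ 1) (z : (Fin n → Bool) → ℝ) (hz : ∀ ε, |z ε| ≤ 1) :
    ∑ ε, ‖∑ ε', KK ρ ε ε' * z ε'‖ ≤ 4 ^ n := by
  have hρ2 : |‖ρ‖ ^ 2| ≤ 1 := by
    rw [abs_of_nonneg (by positivity)]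
    exact pow_le_one₀ (norm_nonneg _) hρ
  have h1 : ((∑ ε, ‖∑ ε', KK ρ ε ε' * z ε'‖ ^ 2 : ℝ) : ℂ) =
      ∑ ε', ∑ ε'', (z ε' * z ε'') * (2 ^ n * KK ((‖ρ‖ ^ 2 : ℝ) : ℂ) ε' ε'') := by
    simp_rw [← KK_KK, Finset.mul_sum]
    rw [Complex.ofReal_sum]
    simp_rw [← Complex.normSq_eq_norm_sq, ← Complex.mul_conj, map_sum, Finset.sum_mul_sum]
    rw [Finset.sum_comm]
    refine Finset.sum_congr rfl fun ε' _ => ?_
    rw [Finset.sum_comm]
    refine Finset.sum_congr rfl fun ε'' _ => Finset.sum_congr rfl fun ε _ => ?_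
    rw [map_mul, Complex.conj_ofReal]
    ring
  have h2 : ∑ ε, ‖∑ ε', KK ρ ε ε' * z ε'‖ ^ 2 ≤ 2 ^ n * 4 ^ n := by
    have h3 := congrArg norm h1
    rw [Complex.norm_real, Real.norm_eq_abs] at h3
    refine (le_abs_self _).trans (h3.le.trans ?_)
    calc _ ≤ ∑ ε', ∑ ε'', 2 ^ n * ‖KK ((‖ρ‖ ^ 2 : ℝ) : ℂ) ε' ε''‖ := by
          refine (norm_sum_le _ _).trans (Finset.sum_le_sum fun ε' _ => ?_)
          refine (norm_sum_le _ _).trans (Finset.sum_le_sum fun ε'' _ => ?_)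
          rw [norm_mul, norm_mul, norm_mul, Complex.norm_real, Complex.norm_real, norm_pow,
            Complex.norm_two, Real.norm_eq_abs, Real.norm_eq_abs]
          refine mul_le_of_le_one_left (by positivity) ?_
          exact mul_le_one₀ (hz _) (abs_nonneg _) (hz _)
      _ = 2 ^ n * 4 ^ n := by
          simp_rw [← Finset.mul_sum, sum_norm_KK hρ2]
          simp only [Finset.sum_const, Finset.card_univ, Fintype.card_pi, Fintype.card_bool,
            Finset.prod_const, Fintype.card_fin, nsmul_eq_mul, Nat.cast_pow, Nat.cast_ofNat]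
          rw [← mul_pow]; norm_num
  have h4 := sq_sum_le_card_mul_sum_sq (s := Finset.univ)
    (f := fun ε : Fin n → Bool => ‖∑ ε', KK ρ ε ε' * z ε'‖)
  simp only [Finset.card_univ, Fintype.card_pi, Fintype.card_bool, Finset.prod_const,
    Fintype.card_fin, Nat.cast_pow, Nat.cast_ofNat] at h4
  refine (pow_le_pow_iff_left₀ (Finset.sum_nonneg fun _ _ => norm_nonneg _) (by positivity)
    two_ne_zero).1 ?_
  calc _ ≤ (2 : ℝ) ^ n * (2 ^ n * 4 ^ n) := h4.trans (by gcongr)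
    _ = _ := by rw [← mul_assoc, ← mul_pow, sq]; norm_num

theorem pisier (hn : 0 < n) (c z : (Fin n → Bool) → Fin n → ℝ) (hc : ∀ ε i, |c ε i| ≤ 1)
    (hz : ∀ ε i, |z ε i| ≤ 1) (hG : ∀ ε ε', |∑ i, c ε i * z ε' i| ≤ 1) :
    (∑ ε, ∑ ε', (∑ j, sg (ε j) * sg (ε' j)) * ∑ i, c ε i * z ε' i) / 4 ^ n ≤
      6 * (1 + Real.log n) := by
  set p : ℂ → ℂ := fun ρ => (∑ ε, ∑ ε', KK ρ ε ε' * (∑ i, c ε i * z ε' i : ℝ)) / 4 ^ n with hp
  have hn' : (1 : ℝ) ≤ n := by exact_mod_cast hn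
  have hd : Differentiable ℂ p := by
    simp only [hp, KK]
    fun_prop
  have h4 : ‖(4 : ℂ) ^ n‖ = 4 ^ n := by simp
  have h1 : ∀ ρ : ℝ, |ρ| ≤ 1 → ‖p ρ‖ ≤ 1 := by
    intro ρ hρ
    rw [hp]
    simp only
    rw [norm_div, h4, div_le_one (by positivity)]
    calc _ ≤ ∑ ε : Fin n → Bool, ∑ ε', ‖KK ρ ε ε'‖ := by
          refine (norm_sum_le _ _).trans (Finset.sum_le_sum fun ε _ => ?_)
          refine (norm_sum_le _ _).trans (Finset.sum_le_sum fun ε' _ => ?_)
          rw [norm_mul, Complex.norm_real, Real.norm_eq_abs]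
          exact mul_le_of_le_one_right (norm_nonneg _) (hG _ _)
      _ = 4 ^ n := by
          simp_rw [sum_norm_KK hρ]
          simp only [Finset.sum_const, Finset.card_univ, Fintype.card_pi, Fintype.card_bool,
            Finset.prod_const, Fintype.card_fin, nsmul_eq_mul, Nat.cast_pow, Nat.cast_ofNat]
          rw [← mul_pow]; norm_num
  have h2 : ∀ ρ : ℂ, ‖ρ‖ ≤ 1 → ‖p ρ‖ ≤ Real.exp 1 * n := by
    intro ρ hρ
    rw [hp]
    simp only
    rw [norm_div, h4, div_le_iff₀ (by positivity)]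
    have h5 : (∑ ε, ∑ ε', KK ρ ε ε' * (∑ i, c ε i * z ε' i : ℝ)) =
        ∑ i, ∑ ε, (c ε i : ℂ) * ∑ ε', KK ρ ε ε' * z ε' i := by
      rw [Finset.sum_comm (s := Finset.univ) (t := (Finset.univ : Finset (Fin n → Bool)))
        (f := fun i ε => (c ε i : ℂ) * ∑ ε', KK ρ ε ε' * z ε' i)]
      refine Finset.sum_congr rfl fun ε _ => ?_
      simp_rw [Finset.mul_sum]
      rw [Finset.sum_comm]
      refine Finset.sum_congr rfl fun ε' _ => ?_
      push_cast
      rw [Finset.mul_sum]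
      exact Finset.sum_congr rfl fun i _ => by ring
    rw [h5]
    calc _ ≤ ∑ _i : Fin n, (4 : ℝ) ^ n := by
          refine (norm_sum_le _ _).trans (Finset.sum_le_sum fun i _ => ?_)
          refine le_trans ?_ (sum_norm_apply hρ (fun ε => z ε i) fun ε => hz ε i)
          refine (norm_sum_le _ _).trans (Finset.sum_le_sum fun ε _ => ?_)
          rw [norm_mul, Complex.norm_real, Real.norm_eq_abs]
          exact mul_le_of_le_one_left (norm_nonneg _) (hc _ _)
      _ = 1 * n * 4 ^ n := by simp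
      _ ≤ _ := by
          gcongr
          exact Real.one_le_exp zero_le_one
  have h3 := deriv_bound p hd (b := Real.exp 1 * n)
    (le_mul_of_one_le_right (Real.exp_pos 1).le hn') h1 h2
  rw [Real.log_mul (Real.exp_pos 1).ne' (by positivity), Real.log_exp] at h3
  have hK : ∀ ε ε' : Fin n → Bool, HasDerivAt (fun ρ => KK ρ ε ε')
      ((∑ j, sg (ε j) * sg (ε' j) : ℝ) : ℂ) 0 := by
    intro ε ε'
    have := HasDerivAt.fun_finsetProd (u := Finset.univ) (x := (0 : ℂ))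
      (f := fun j ρ => 1 + ρ * ((sg (ε j) * sg (ε' j) : ℝ) : ℂ))
      (f' := fun j => ((sg (ε j) * sg (ε' j) : ℝ) : ℂ))
      (fun j _ => by simpa using ((hasDerivAt_id (0 : ℂ)).mul_const
        ((sg (ε j) * sg (ε' j) : ℝ) : ℂ)).const_add 1)
    simpa [KK] using this
  have h6 : HasDerivAt p (((∑ ε, ∑ ε', (∑ j, sg (ε j) * sg (ε' j)) * ∑ i, c ε i * z ε' i) / 4 ^ n
      : ℝ) : ℂ) 0 := by
    have := (HasDerivAt.fun_sum (u := Finset.univ) fun ε _ =>
      HasDerivAt.fun_sum (u := Finset.univ) fun ε' _ =>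
        (hK ε ε').mul_const ((∑ i, c ε i * z ε' i : ℝ) : ℂ)).div_const (4 ^ n)
    refine this.congr_deriv ?_
    push_cast
    rfl
  rw [h6.deriv, Complex.norm_real, Real.norm_eq_abs] at h3
  exact (le_abs_self _).trans h3

theorem lowrank {Ω Ω' : Type} [Fintype Ω] [Fintype Ω'] (f : Ω → Fin n → ℝ) (x : Ω' → Fin n → ℝ)
    (h : ∀ a b, |∑ i, f a i * x b i| ≤ 1) :
    ∃ (c : Ω → Fin n → ℝ) (z : Ω' → Fin n → ℝ), (∀ a i, |c a i| ≤ 1) ∧ (∀ b i, |z b i| ≤ 1) ∧
      ∀ a b, ∑ i, f a i * x b i = ∑ i, c a i * z b i := by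
  classical
  set δ : ℝ := 1 / (1 + ‖x‖) with hδ
  have hδ0 : 0 < δ := by positivity
  set g : Ω ⊕ Fin n → Fin n → ℝ := Sum.elim f fun i => Pi.single i δ with hg
  have hgx : ∀ a b, |∑ i, g a i * x b i| ≤ 1 := by
    rintro (a | j) b
    · exact h a b
    · simp only [hg, Sum.elim_inr]
      rw [Finset.sum_eq_single j (fun i _ hi => by simp [hi]) (by simp), Pi.single_eq_same, abs_mul,
        abs_of_pos hδ0, hδ, one_div, inv_mul_le_iff₀ (by positivity)]
      have h1 : |x b j| ≤ ‖x‖ := (norm_le_pi_norm (x b) j).trans (norm_le_pi_norm x b)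
      linarith
  obtain ⟨t, -, ht⟩ := Finset.exists_max_image Finset.univ
    (fun t : Fin n → Ω ⊕ Fin n => |(Matrix.of fun j => g (t j)).det|) ⟨Sum.inr, Finset.mem_univ _⟩
  set A : Matrix (Fin n) (Fin n) ℝ := Matrix.of fun j => g (t j) with hA
  have hpos : 0 < |A.det| := by
    refine lt_of_lt_of_le ?_ (ht Sum.inr (Finset.mem_univ _))
    have h1 : (Matrix.of fun j => g (Sum.inr j)) = Matrix.diagonal fun _ : Fin n => δ := by
      ext i j
      simp [hg, Matrix.diagonal_apply, Pi.single_apply, eq_comm]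
    rw [h1, Matrix.det_diagonal, abs_pos]
    exact Finset.prod_ne_zero_iff.2 fun _ _ => hδ0.ne'
  have hne : A.det ≠ 0 := abs_pos.1 hpos
  refine ⟨fun a j => A.transpose.cramer (f a) j / A.det, fun b j => ∑ i, g (t j) i * x b i,
    fun a j => ?_, fun b j => hgx _ _, fun a b => ?_⟩
  · rw [abs_div, div_le_one hpos, Matrix.cramer_transpose_apply]
    refine le_trans (le_of_eq ?_) (ht (Function.update t j (Sum.inl a)) (Finset.mem_univ _))
    congr 2
    ext k i
    by_cases hk : k = j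
    · subst hk; simp [hg]
    · simp [hk, hA]
  · have h1 := A.transpose.mulVec_cramer (f a)
    rw [Matrix.det_transpose] at h1
    simp_rw [Finset.mul_sum]
    rw [Finset.sum_comm]
    refine Finset.sum_congr rfl fun i _ => ?_
    have h2 := congrFun h1 i
    simp only [Matrix.mulVec, dotProduct, Matrix.transpose_apply, hA, Matrix.of_apply,
      Pi.smul_apply, smul_eq_mul] at h2
    have h3 : f a i = ∑ j, g (t j) i * A.transpose.cramer (f a) j / A.det := by
      rw [← Finset.sum_div, eq_div_iff hne, mul_comm]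
      exact h2.symm
    rw [h3, Finset.sum_mul]
    exact Finset.sum_congr rfl fun j _ => by ring

end Pool.Agent.Lib.MP_8115c2_gt.Log
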