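import Pool.Agent.Lib.MP_8115c2_gt.Log.Graph
import Pool.Agent.Lib.MP_8115c2_gt.Log.Pisier
import Pool.Agent.Shared.Brouwer

/-!
The lower bound for the Hausdorff measure of a filling of the Euclidean sphere.
-/

open MeasureTheory Set Metric Filter Topology
open scoped ENNReal

namespace Pool.Agent.Lib.MP_8115c2_gt.Log

variable {n : ℕ}

/-- Columns of the contraction. -/
noncomputable def a0 (n : ℕ) (ε : Fin n → Bool) : E n := (√n / 2 ^ n) • sv ε

theorem TT_a0_apply (w : (Fin n → Bool) → ℝ) (j : Fin n) :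
    TT (a0 n) w j = √n / 2 ^ n * ∑ ε, w ε * sg (ε j) := by
  rw [TT_apply, Finset.mul_sum]
  simp only [a0, sv, WithLp.ofLp_sum, WithLp.ofLp_smul, Finset.sum_apply, Pi.smul_apply,
    smul_eq_mul]
  exact Finset.sum_congr rfl fun ε _ => by ring

theorem sum_sg_le (ε : Fin n → Bool) (e : E n) : ∑ j, sg (ε j) * e j ≤ √n * ‖e‖ := by
  have h1 := Finset.sum_mul_sq_le_sq_mul_sq Finset.univ (fun j => sg (ε j)) (fun j => e j)
  have h2 : ∑ j, sg (ε j) ^ 2 = n := by simp [sq, sg_sq]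
  have h3 : ∑ j, e j ^ 2 = ‖e‖ ^ 2 := by
    rw [EuclideanSpace.real_norm_sq_eq]
  rw [h2, h3] at h1
  refine le_trans (le_abs_self _) (abs_le_of_sq_le_sq' ?_ (by positivity)).2
  rw [sq_abs, mul_pow, Real.sq_sqrt (Nat.cast_nonneg n)]
  exact h1

theorem abs_sum_sg_le (ε : Fin n → Bool) (e : E n) : |∑ j, sg (ε j) * e j| ≤ √n * ‖e‖ := by
  refine abs_le.2 ⟨?_, sum_sg_le ε e⟩
  have := sum_sg_le ε (-e)
  simp only [PiLp.neg_apply, mul_neg, Finset.sum_neg_distrib, norm_neg] at this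
  linarith

theorem sum_sg_sg (i j : Fin n) :
    ∑ ε : Fin n → Bool, sg (ε i) * sg (ε j) = if i = j then 2 ^ n else 0 := by
  split_ifs with h
  · subst h; simp [sg_sq]
  · set e : (Fin n → Bool) ≃ (Fin n → Bool) :=
      Function.Involutive.toPerm (fun ε => Function.update ε i (!ε i)) (fun ε => by simp) with he
    have h1 := e.sum_comp fun ε => sg (ε i) * sg (ε j)
    have h2 : ∀ ε, sg (e ε i) * sg (e ε j) = -(sg (ε i) * sg (ε j)) := by
      intro ε
      have h3 : e ε i = !ε i := by simp [he]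
      have h4 : e ε j = ε j := by simp [he, Function.update_of_ne (Ne.symm h)]
      rw [h3, h4]
      cases ε i <;> cases ε j <;> simp [sg]
    simp_rw [h2, Finset.sum_neg_distrib] at h1
    linarith

/-- The embedding of Euclidean space in the sup-normed space. -/
noncomputable def JJ (z : E n) (ε : Fin n → Bool) : ℝ := (∑ j, sg (ε j) * z j) / √n

theorem TT_JJ (hn : 0 < n) (z : E n) : TT (a0 n) (JJ z) = z := by
  have hs : 0 < √(n : ℝ) := Real.sqrt_pos.2 (by exact_mod_cast hn)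
  ext j
  rw [TT_a0_apply]
  have h1 : ∑ ε : Fin n → Bool, JJ z ε * sg (ε j) = 2 ^ n * z j / √n := by
    simp_rw [JJ, div_mul_eq_mul_div, ← Finset.sum_div, Finset.sum_mul]
    congr 1
    rw [Finset.sum_comm]
    have h2 : ∀ i, ∑ ε : Fin n → Bool, sg (ε i) * z i * sg (ε j) =
        (if i = j then 2 ^ n else 0) * z i := by
      intro i
      rw [← sum_sg_sg, Finset.sum_mul]
      exact Finset.sum_congr rfl fun ε _ => by ring
    simp [h2]
  rw [h1]
  field_simp

theorem JJ_dist (hn : 0 < n) (z z' : E n) : dist (JJ z) (JJ z') ≤ ‖z - z'‖ := by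
  have hs : 0 < √(n : ℝ) := Real.sqrt_pos.2 (by exact_mod_cast hn)
  refine (dist_pi_le_iff (norm_nonneg _)).2 fun ε => ?_
  rw [Real.dist_eq, JJ, JJ, ← sub_div, ← Finset.sum_sub_distrib, abs_div, abs_of_pos hs,
    div_le_iff₀ hs, mul_comm]
  simpa [mul_sub] using abs_sum_sg_le ε (z - z')

theorem JJ_norm (hn : 0 < n) (z : E n) : ‖JJ z‖ ≤ ‖z‖ := by
  have h := JJ_dist hn z 0
  have h0 : JJ (0 : E n) = 0 := by funext ε; simp [JJ]
  rwa [h0, dist_zero_right, sub_zero] at h

theorem vol_DD (hn : 2 ≤ n) (L : E n →L[ℝ] ((Fin n → Bool) → ℝ)) :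
    volume (DD (TT (a0 n)) L) ≤ ENNReal.ofReal ((198 * Real.log n) ^ n) * om n := by
  have hn0 : 0 < n := by omega
  have hn' : (2 : ℝ) ≤ n := by exact_mod_cast hn
  have hs : 1 ≤ √(n : ℝ) := Real.one_le_sqrt.2 (by linarith)
  have hlog : 0.69 ≤ Real.log n :=
    le_trans (by linarith [Real.log_two_gt_d9]) (Real.log_le_log two_pos hn')
  set val : (Fin n → Bool) → E n → ℝ := fun ε x => ∑ j, sg (ε j) * TT (a0 n) (L x) j with hval
  have hmax : ∀ ε, ∃ x, ‖L x‖ ≤ 2 ∧ ∀ x', ‖L x'‖ ≤ 2 → val ε x' ≤ val ε x + 1 := by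
    intro ε
    have hb : BddAbove (val ε '' {x | ‖L x‖ ≤ 2}) := by
      refine ⟨√n * (‖TT (a0 n)‖ * 2), ?_⟩
      rintro _ ⟨x, hx, rfl⟩
      refine (sum_sg_le ε _).trans ?_
      gcongr
      exact ((TT (a0 n)).le_opNorm _).trans (by gcongr; exact hx)
    obtain ⟨_, ⟨x, hx, rfl⟩, h⟩ := exists_lt_of_lt_csSup (s := val ε '' {x | ‖L x‖ ≤ 2})
      ⟨_, 0, by simp, rfl⟩ (sub_one_lt _)
    exact ⟨x, hx, fun x' hx' => by linarith [le_csSup hb ⟨x', hx', rfl⟩]⟩
  choose x hx1 hx2 using hmax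
  have hLx : ∀ (y : E n) (ε : Fin n → Bool),
      L y ε = ∑ i, L (EuclideanSpace.single i 1) ε * y i := by
    intro y ε
    conv_lhs => rw [← (EuclideanSpace.basisFun (Fin n) ℝ).sum_repr y]
    simp [mul_comm]
  obtain ⟨c, z, hc, hz, hcz⟩ := lowrank (fun ε i => L (EuclideanSpace.single i 1) ε)
    (fun ε i => x ε i / 2) (fun a b => by
      simp_rw [← mul_div_assoc, ← Finset.sum_div, ← hLx]
      have := (norm_le_pi_norm (L (x b)) a).trans (hx1 b)
      rw [Real.norm_eq_abs] at this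
      rw [abs_div, abs_two]
      linarith)
  simp_rw [← mul_div_assoc, ← Finset.sum_div, ← hLx] at hcz
  have hP := pisier hn0 c z hc hz (fun a b => by
    rw [← hcz]
    have := (norm_le_pi_norm (L (x b)) a).trans (hx1 b)
    rw [Real.norm_eq_abs] at this
    rw [abs_div, abs_two]
    linarith)
  simp_rw [← hcz] at hP
  have hsum : (∑ ε, val ε (x ε)) / 2 ^ n = 2 * √n *
      ((∑ ε, ∑ ε', (∑ j, sg (ε j) * sg (ε' j)) * (L (x ε') ε / 2)) / 4 ^ n) := by
    rw [Finset.sum_comm (f := fun ε ε' => (∑ j, sg (ε j) * sg (ε' j)) * (L (x ε') ε / 2)),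
      show (4 : ℝ) ^ n = 2 ^ n * 2 ^ n by rw [← mul_pow]; norm_num,
      Finset.sum_div, Finset.sum_div, Finset.mul_sum]
    refine Finset.sum_congr rfl fun ε' _ => ?_
    simp only [hval, TT_a0_apply, Finset.mul_sum, Finset.sum_mul, Finset.sum_div]
    rw [Finset.sum_comm]
    refine Finset.sum_congr rfl fun ε _ => Finset.sum_congr rfl fun j _ => ?_
    field_simp
  have h1 := vol_signs_E hn0 (DD (TT (a0 n)) L) (fun ε => val ε (x ε) + (1 + √n))
    (M := 33 * √n * Real.log n) (by positivity) (by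
      rw [Finset.sum_add_distrib, add_div, hsum]
      simp only [Finset.sum_const, Finset.card_univ, Fintype.card_pi, Fintype.card_bool,
        Finset.prod_const, Fintype.card_fin, nsmul_eq_mul, Nat.cast_pow, Nat.cast_ofNat]
      rw [mul_div_cancel_left₀ _ (by positivity)]
      have h2 : 2 * √n * ((∑ ε, ∑ ε', (∑ j, sg (ε j) * sg (ε' j)) * (L (x ε') ε / 2)) / 4 ^ n) ≤
          2 * √n * (6 * (1 + Real.log n)) := by gcongr
      nlinarith)
    (by
      rintro y ⟨x', h1, h2⟩ ε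
      have h3 := hx2 ε x' h1
      have h4 := sum_sg_le ε (y - TT (a0 n) (L x'))
      simp only [PiLp.sub_apply, mul_sub, Finset.sum_sub_distrib] at h4
      have h5 : √n * ‖y - TT (a0 n) (L x')‖ ≤ √n * 1 := by gcongr
      simp only [hval] at h3 ⊢
      linarith)
  refine h1.trans (le_trans (le_of_eq ?_) (mul_le_mul_right (om_ge hn0) _))
  rw [← ENNReal.ofReal_mul (by positivity), ← mul_pow]
  congr 2
  have h3 : (n : ℝ) = √n * √n := (Real.mul_self_sqrt (by positivity)).symm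
  field_simp
  rw [Real.sq_sqrt (by positivity)]
  ring

theorem ball_subset_image {X : Type} [TopologicalSpace X] (φ : X ≃ₜ closedBall (0 : E n) 1)
    (G : X → E n) (hG : Continuous G) (h : ∀ x, ‖(φ x : E n)‖ = 1 → ‖G x - φ x‖ ≤ 4⁻¹) :
    ball (0 : E n) 2⁻¹ ⊆ range G := by
  intro p hp
  rw [mem_ball_zero_iff] at hp
  set ρ : E n → E n := fun x => (max 1 ‖x‖)⁻¹ • x with hρ
  have hρc : Continuous ρ := by
    have h1 : Continuous fun x : E n => (max 1 ‖x‖)⁻¹ :=
      Continuous.inv₀ (by fun_prop) (fun x => (lt_max_of_lt_left one_pos).ne')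
    exact h1.smul continuous_id
  have hρm : ∀ x, ρ x ∈ closedBall (0 : E n) 1 := by
    intro x
    have h1 : 0 < max 1 ‖x‖ := lt_max_of_lt_left one_pos
    rw [mem_closedBall_zero_iff, hρ]
    simp only [norm_smul, norm_inv, Real.norm_eq_abs, abs_of_pos h1]
    rw [inv_mul_le_iff₀ h1, mul_one]
    exact le_max_right _ _
  have hρ1 : ∀ x, ‖x‖ ≤ 1 → ρ x = x := by
    intro x hx
    simp [hρ, max_eq_left hx]
  have hρ2 : ∀ x, 1 ≤ ‖x‖ → ‖ρ x‖ = 1 := by
    intro x hx
    simp only [hρ, max_eq_right hx, norm_smul, norm_inv, norm_norm]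
    exact inv_mul_cancel₀ (by linarith)
  set g : E n → X := fun z => φ.symm ⟨ρ z, hρm z⟩ with hg
  have hgc : Continuous g := φ.symm.continuous.comp (hρc.subtype_mk _)
  obtain ⟨z, hz, hfz⟩ := Pool.Agent.Shared.Brouwer.fixed_point_closedBall
    (fun z => ρ (z - G (g z) + p))
    (hρc.comp ((continuous_id.sub (hG.comp hgc)).add continuous_const)).continuousOn
    (fun z _ => hρm _)
  have h1 : (φ (g z) : E n) = z := by
    simp only [hg, Homeomorph.apply_symm_apply]
    exact hρ1 z (mem_closedBall_zero_iff.1 hz)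
  rcases le_total ‖z - G (g z) + p‖ 1 with h2 | h2
  · rw [hρ1 _ h2] at hfz
    refine ⟨g z, ?_⟩
    have : z - G (g z) + p - z = 0 := sub_eq_zero.2 hfz
    rw [← sub_eq_zero, ← neg_eq_zero, ← this]
    abel
  · have h3 := hρ2 _ h2
    rw [hfz] at h3
    have h4 := h (g z) (by rw [h1]; exact h3)
    rw [h1, ← norm_neg, neg_sub] at h4
    have h5 := norm_add_le (z - G (g z)) p
    linarith

theorem hausdorff_ball (n : ℕ) : μH[n] (ball (0 : E n) 1) ≤ ENNReal.ofReal (16 ^ n) := by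
  have key : ∀ k : ℕ, ∃ u : Set (E n), u.Countable ∧
      (ball (0 : E n) 1 ⊆ ⋃ b : u, ball (b : E n) (4 * (1 / ((k : ℝ) + 1)))) ∧
      (∑' _b : u, ENNReal.ofReal ((1 / ((k : ℝ) + 1)) ^ n)) ≤ ENNReal.ofReal (2 ^ n) := by
    intro k
    have hk : 1 / ((k : ℝ) + 1) ≤ 1 := by
      rw [div_le_one (by positivity)]
      have : (0 : ℝ) ≤ k := Nat.cast_nonneg _
      linarith
    obtain ⟨u, -, huc, hcov, hsum⟩ := vitali_sum (ball (0 : E n) 1) id
      (fun _ => 1 / ((k : ℝ) + 1)) 1 (fun _ _ => by positivity) (fun _ _ => hk) (ball 0 2)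
      (fun a ha => ball_subset_ball' (by rw [mem_ball] at ha; simp only [id]; linarith))
    refine ⟨u, huc, fun a ha => ?_, ?_⟩
    · obtain ⟨b, hb, hab⟩ := hcov a ha
      exact mem_iUnion.2 ⟨⟨b, hb⟩, hab⟩
    · rw [vol_ball _ two_pos] at hsum
      exact (ENNReal.mul_le_mul_iff_left (om_pos n).ne' (om_ne_top n)).1 hsum
  choose u huc hcov hsum using key
  have : ∀ k, Countable (u k) := fun k => (huc k).to_subtype
  have hd : ∀ (k : ℕ) (b : E n), ediam (ball b (4 * (1 / ((k : ℝ) + 1)))) ≤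
      ENNReal.ofReal (8 * (1 / ((k : ℝ) + 1))) := by
    intro k b
    refine ediam_le_of_forall_dist_le fun x hx y hy => ?_
    have h1 := dist_triangle_right x y b
    rw [mem_ball] at hx hy
    linarith
  have h1 := Measure.hausdorffMeasure_le_liminf_tsum (n : ℝ) (ball (0 : E n) 1) (l := atTop)
    (ι := fun k => u k) (fun k : ℕ => ENNReal.ofReal (8 * (1 / ((k : ℝ) + 1))))
    (by
      have := ENNReal.tendsto_ofReal
        ((tendsto_one_div_add_atTop_nhds_zero_nat (𝕜 := ℝ)).const_mul 8)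
      simpa using this)
    (fun k b => ball (b : E n) (4 * (1 / ((k : ℝ) + 1))))
    (Eventually.of_forall fun k b => hd k b) (Eventually.of_forall hcov)
  refine h1.trans (liminf_le_of_frequently_le' (Frequently.of_forall fun k => ?_))
  calc _ ≤ ∑' _b : u k, ENNReal.ofReal (8 ^ n) * ENNReal.ofReal ((1 / ((k : ℝ) + 1)) ^ n) := by
        refine ENNReal.tsum_le_tsum fun b => ?_
        rw [← ENNReal.ofReal_mul (by positivity), ← mul_pow, ENNReal.ofReal_pow (by positivity),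
          ENNReal.rpow_natCast]
        gcongr
        exact hd k b
    _ ≤ ENNReal.ofReal (8 ^ n) * ENNReal.ofReal (2 ^ n) := by
        rw [ENNReal.tsum_mul_left]
        gcongr
        exact hsum k
    _ = _ := by rw [← ENNReal.ofReal_mul (by positivity), ← mul_pow]; norm_num

theorem lower_hausdorff (hn : 2 ≤ n) {X : Type} [MetricSpace X] [MeasurableSpace X] [BorelSpace X]
    (φ : X ≃ₜ closedBall (0 : E n) 1)
    (h : ∀ x y : X, ‖(φ x : E n)‖ = 1 → ‖(φ y : E n)‖ = 1 → ‖(φ x : E n) - φ y‖ ≤ dist x y) :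
    ENNReal.ofReal (2⁻¹ ^ n) ≤ ENNReal.ofReal ((198 * Real.log n) ^ n) * μH[n] (univ : Set X) := by
  have hn0 : 0 < n := by omega
  have hn' : (2 : ℝ) ≤ n := by exact_mod_cast hn
  have hlog : 0 < Real.log n := Real.log_pos (by linarith)
  have hC0 : ENNReal.ofReal ((198 * Real.log n) ^ n) ≠ 0 := by
    rw [Ne, ENNReal.ofReal_eq_zero, not_le]; positivity
  by_cases hX : μH[n] (univ : Set X) = ⊤
  · rw [hX, ENNReal.mul_top hC0]; exact le_top
  have hlip : LipschitzOnWith 1 (fun x : X => JJ (φ x : E n)) {x | ‖(φ x : E n)‖ = 1} :=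
    LipschitzOnWith.of_dist_le_mul fun x hx y hy => by
      simpa using (JJ_dist hn0 _ _).trans (h x y hx hy)
  obtain ⟨β, hβ, hβJ⟩ := hlip.extend_pi
  have : CompactSpace X := φ.symm.compactSpace
  have hY : IsCompact (range β) := isCompact_range hβ.continuous
  have hYle : μH[n] (range β) ≤ μH[n] (univ : Set X) := by
    have := hβ.hausdorffMeasure_image_le (d := (n : ℝ)) (Nat.cast_nonneg n) univ
    simpa using this
  have hYf : μH[n] (range β) ≠ ⊤ := ne_top_of_le_ne_top hX hYle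
  obtain ⟨a, ⟨Z, Γ, hcov, hZ, hΓ⟩, ha⟩ := (Measure.dense_of_ae (struct hn0 hY hYf)).exists_dist_lt
    (a0 n) (ε := 4⁻¹ / 2 ^ n) (by positivity)
  have hTT : ∀ w, ‖TT a w - TT (a0 n) w‖ ≤ 4⁻¹ * ‖w‖ := by
    intro w
    have h1 : TT a w - TT (a0 n) w = TT (a - a0 n) w := by
      simp [TT_apply, smul_sub]
    rw [h1]
    refine (TT_norm_le _ _).trans ?_
    gcongr
    calc ∑ i, ‖(a - a0 n) i‖ ≤ ∑ _i : Fin n → Bool, (4⁻¹ / 2 ^ n : ℝ) := by
          refine Finset.sum_le_sum fun i _ => (norm_le_pi_norm _ i).trans ?_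
          rw [← dist_eq_norm, dist_comm]
          exact ha.le
      _ = 4⁻¹ := by
          simp only [Finset.sum_const, Finset.card_univ, Fintype.card_pi, Fintype.card_bool,
            Finset.prod_const, Fintype.card_fin, nsmul_eq_mul, Nat.cast_pow, Nat.cast_ofNat]
          field_simp
  have h1 := rect_vol (TT a) (TT (a0 n)) hTT (mul_ne_zero hC0 (om_pos n).ne')
    (ENNReal.mul_ne_top ENNReal.ofReal_ne_top (om_ne_top n)) (vol_DD hn) (range β) Z
    hY.measurableSet Γ hcov hZ hΓ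
  have h2 := ball_subset_image φ (fun x => TT a (β x)) ((TT a).continuous.comp hβ.continuous)
    (fun x hx => by
      rw [← hβJ hx]
      have h3 := hTT (JJ (φ x : E n))
      rw [TT_JJ hn0] at h3
      have h4 := JJ_norm hn0 (φ x : E n)
      simp only
      nlinarith)
  have h3 : volume (ball (0 : E n) 2⁻¹) ≤ volume (TT a '' range β) := by
    rw [← range_comp]
    exact measure_mono h2
  rw [vol_ball _ (by norm_num)] at h3
  have h4 := h3.trans (h1.trans (mul_le_mul_right hYle _))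
  rw [mul_right_comm] at h4
  exact (ENNReal.mul_le_mul_iff_left (om_pos n).ne' (om_ne_top n)).1 h4

theorem lower_bound (hn : 2 ≤ n) {X : Type} [MetricSpace X] [MeasurableSpace X] [BorelSpace X]
    (φ : X ≃ₜ closedBall (0 : E n) 1)
    (h : ∀ x y : X, ‖(φ x : E n)‖ = 1 → ‖(φ y : E n)‖ = 1 → ‖(φ x : E n) - φ y‖ ≤ dist x y) :
    ENNReal.ofReal ((6336⁻¹ / Real.log n) ^ n) * om n ≤ μHE[n] (univ : Set X) := by
  have hn0 : 0 < n := by omega
  have hn' : (2 : ℝ) ≤ n := by exact_mod_cast hn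
  have hlog : 0 < Real.log n := Real.log_pos (by linarith)
  have h1 := lower_hausdorff hn φ h
  have h2 : om n ≤ (Measure.addHaarScalarFactor (volume : Measure (E n)) μH[n] : ℝ≥0∞) *
      ENNReal.ofReal (16 ^ n) := by
    have h3 : om n = μHE[n] (ball (0 : E n) 1) := by
      rw [EuclideanSpace.euclideanHausdorffMeasure_eq_volume]; rfl
    rw [h3, Measure.euclideanHausdorffMeasure_def, Measure.smul_apply, ENNReal.smul_def,
      smul_eq_mul]
    gcongr
    exact hausdorff_ball n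
  rw [Measure.euclideanHausdorffMeasure_def, Measure.smul_apply, ENNReal.smul_def, smul_eq_mul]
  have h4 : ENNReal.ofReal ((6336⁻¹ / Real.log n) ^ n) * ENNReal.ofReal (16 ^ n) =
      ENNReal.ofReal ((198⁻¹ / Real.log n) ^ n) * ENNReal.ofReal (2⁻¹ ^ n) := by
    rw [← ENNReal.ofReal_mul (by positivity), ← ENNReal.ofReal_mul (by positivity), ← mul_pow,
      ← mul_pow]
    congr 2
    ring
  have h5 : ENNReal.ofReal ((198⁻¹ / Real.log n) ^ n) * ENNReal.ofReal ((198 * Real.log n) ^ n)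
      = 1 := by
    rw [← ENNReal.ofReal_mul (by positivity), ← mul_pow]
    have : 198⁻¹ / Real.log n * (198 * Real.log n) = 1 := by field_simp
    rw [this]; simp
  calc _ ≤ ENNReal.ofReal ((6336⁻¹ / Real.log n) ^ n) *
        ((Measure.addHaarScalarFactor (volume : Measure (E n)) μH[n] : ℝ≥0∞) *
          ENNReal.ofReal (16 ^ n)) := by gcongr
    _ = (Measure.addHaarScalarFactor (volume : Measure (E n)) μH[n] : ℝ≥0∞) *
        (ENNReal.ofReal ((198⁻¹ / Real.log n) ^ n) * ENNReal.ofReal (2⁻¹ ^ n)) := by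
          rw [← h4]; ring
    _ ≤ (Measure.addHaarScalarFactor (volume : Measure (E n)) μH[n] : ℝ≥0∞) *
        (ENNReal.ofReal ((198⁻¹ / Real.log n) ^ n) *
          (ENNReal.ofReal ((198 * Real.log n) ^ n) * μH[n] (univ : Set X))) := by gcongr
    _ = _ := by rw [← mul_assoc _ _ (μH[n] (univ : Set X)), h5, one_mul]

end Pool.Agent.Lib.MP_8115c2_gt.Log
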