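import Pool.Agent.Lib.MP_8115c2_gt.Log.Rado

/-!
Federer's three alternatives for generic linear maps given by matrices.
-/

open MeasureTheory Set Metric Filter Topology
open scoped ENNReal

namespace Pool.Agent.Lib.MP_8115c2_gt.Log

variable {ι : Type} [Fintype ι] [DecidableEq ι] {n : ℕ}

/-- The linear map with columns `a i`. -/
noncomputable def TT (a : ι → E n) : (ι → ℝ) →L[ℝ] E n :=
  ∑ i, (ContinuousLinearMap.proj i : (ι → ℝ) →L[ℝ] ℝ).smulRight (a i)

omit [DecidableEq ι] in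
theorem TT_apply (a : ι → E n) (w : ι → ℝ) : TT a w = ∑ i, w i • a i := by
  simp [TT]

omit [DecidableEq ι] in
theorem TT_norm_le (a : ι → E n) (w : ι → ℝ) : ‖TT a w‖ ≤ (∑ i, ‖a i‖) * ‖w‖ := by
  rw [TT_apply, Finset.sum_mul]
  refine (norm_sum_le _ _).trans (Finset.sum_le_sum fun i _ => ?_)
  rw [norm_smul, mul_comm]
  gcongr
  exact norm_le_pi_norm w i

omit [DecidableEq ι] in
theorem TT_cont : Continuous fun p : (ι → E n) × (ι → ℝ) => TT p.1 p.2 := by
  simp_rw [TT_apply]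
  fun_prop

theorem TT_update (a : ι → E n) (k : ι) (x : E n) (w : ι → ℝ) :
    TT (Function.update a k x) w = TT (Function.update a k 0) w + w k • x := by
  rw [TT_apply, TT_apply, ← Finset.add_sum_erase _ _ (Finset.mem_univ k),
    ← Finset.add_sum_erase _ _ (Finset.mem_univ k)]
  have : ∀ z : E n, ∑ i ∈ Finset.univ.erase k, w i • Function.update a k z i =
      ∑ i ∈ Finset.univ.erase k, w i • a i := fun z =>
    Finset.sum_congr rfl fun i hi => by rw [Function.update_of_ne (Finset.ne_of_mem_erase hi)]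
  rw [this, this]
  simp [add_comm]

/-- The part of the cone in the sector where coordinate `k` is the largest. -/
def scone (a : ι → E n) (k : ι) (y : ι → ℝ) (r s : ℝ) : Set (ι → ℝ) :=
  {y' | ‖y' - y‖ < r ∧ |(y' - y) k| = ‖y' - y‖ ∧ ‖TT a (y' - y)‖ < s * ‖y' - y‖}

/-- Bound for the measure of the sector cones. -/
def SB (μ : Measure (ι → ℝ)) (a : ι → E n) (k : ι) (y : ι → ℝ) (δ : ℝ) (M : ℝ≥0∞) (j : ℕ) :
    Prop :=
  ∀ s : ℚ, (0 : ℝ) < s → (s : ℝ) < 1 / ((j : ℝ) + 1) → ∀ r : ℚ, (0 : ℝ) < r → (r : ℝ) < δ →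
    μ (scone a k y r s) ≤ M * ENNReal.ofReal (((r : ℝ) * s) ^ n)

/-- Another point of the fibre lies within `δ`. -/
def Acc (Y : Set (ι → ℝ)) (a : ι → E n) (y : ι → ℝ) (δ : ℝ) : Prop :=
  ∃ y' ∈ Y, y' ≠ y ∧ ‖y' - y‖ ≤ δ ∧ TT a (y' - y) = 0

/-- The three alternatives. -/
def Good (μ : Measure (ι → ℝ)) (Y : Set (ι → ℝ)) (a : ι → E n) (k : ι) (y : ι → ℝ) (δ : ℝ)
    (lam : ℝ≥0∞) : Prop :=
  Acc Y a y δ ∨ ¬ (∃ M j : ℕ, SB μ a k y δ M j) ∨ ∃ i, SB μ a k y δ lam i

omit [DecidableEq ι] in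
theorem meas_acc {Y : Set (ι → ℝ)} (hY : IsCompact Y) (δ : ℝ) :
    MeasurableSet {p : (ι → ℝ) × (ι → E n) | Acc Y p.2 p.1 δ} := by
  have h1 : {p : (ι → ℝ) × (ι → E n) | Acc Y p.2 p.1 δ} = ⋃ m : ℕ,
      Prod.fst '' {q : ((ι → ℝ) × (ι → E n)) × Y | 1 / ((m : ℝ) + 1) ≤ ‖(q.2 : ι → ℝ) - q.1.1‖ ∧
        ‖(q.2 : ι → ℝ) - q.1.1‖ ≤ δ ∧ TT q.1.2 ((q.2 : ι → ℝ) - q.1.1) = 0} := by
    ext p
    simp only [mem_ofPred_eq, mem_iUnion, mem_image]
    constructor
    · rintro ⟨y', hy', h1, h2, h3⟩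
      obtain ⟨m, hm⟩ := exists_nat_one_div_lt (K := ℝ) (norm_pos_iff.2 (sub_ne_zero.2 h1))
      exact ⟨m, (p, ⟨y', hy'⟩), ⟨hm.le, h2, h3⟩, rfl⟩
    · rintro ⟨m, ⟨p', y'⟩, ⟨h1, h2, h3⟩, rfl⟩
      refine ⟨y', y'.2, fun h => ?_, h2, h3⟩
      simp only [h, sub_self, norm_zero] at h1
      have : (0 : ℝ) < 1 / ((m : ℝ) + 1) := by positivity
      linarith
  rw [h1]
  have : CompactSpace Y := isCompact_iff_compactSpace.1 hY
  refine MeasurableSet.iUnion fun m => (isClosedMap_fst_of_compactSpace _ ?_).measurableSet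
  have c1 : Continuous fun q : ((ι → ℝ) × (ι → E n)) × Y => ‖(q.2 : ι → ℝ) - q.1.1‖ := by fun_prop
  have c2 : Continuous fun q : ((ι → ℝ) × (ι → E n)) × Y => TT q.1.2 ((q.2 : ι → ℝ) - q.1.1) :=
    TT_cont.comp (f := fun q : ((ι → ℝ) × (ι → E n)) × Y => (q.1.2, (q.2 : ι → ℝ) - q.1.1))
      (by fun_prop)
  exact (isClosed_le continuous_const c1).inter
    ((isClosed_le c1 continuous_const).inter (isClosed_eq c2 continuous_const))

omit [DecidableEq ι] in
theorem meas_sb (μ : Measure (ι → ℝ)) [IsFiniteMeasure μ] (k : ι) (δ : ℝ) (M : ℝ≥0∞) (j : ℕ) :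
    MeasurableSet {p : (ι → ℝ) × (ι → E n) | SB μ p.2 k p.1 δ M j} := by
  have h1 : ∀ r s : ℝ, Measurable fun p : (ι → ℝ) × (ι → E n) => μ (scone p.2 k p.1 r s) := by
    intro r s
    have h2 : MeasurableSet {q : ((ι → ℝ) × (ι → E n)) × (ι → ℝ) |
        q.2 ∈ scone q.1.2 k q.1.1 r s} := by
      have c1 : Continuous fun q : ((ι → ℝ) × (ι → E n)) × (ι → ℝ) => ‖q.2 - q.1.1‖ := by fun_prop
      have c2 : Continuous fun q : ((ι → ℝ) × (ι → E n)) × (ι → ℝ) => |(q.2 - q.1.1) k| := by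
        fun_prop
      have c3 : Continuous fun q : ((ι → ℝ) × (ι → E n)) × (ι → ℝ) => ‖TT q.1.2 (q.2 - q.1.1)‖ :=
        (TT_cont.comp (f := fun q : ((ι → ℝ) × (ι → E n)) × (ι → ℝ) => (q.1.2, q.2 - q.1.1))
          (by fun_prop)).norm
      exact (isOpen_lt c1 continuous_const).measurableSet.inter
        ((isClosed_eq c2 c1).measurableSet.inter
          (isOpen_lt c3 (continuous_const.mul c1)).measurableSet)
    exact measurable_measure_prodMk_left h2
  simp only [SB, ofPred_forall]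
  refine MeasurableSet.iInter fun s => MeasurableSet.iInter fun _ => MeasurableSet.iInter fun _ =>
    MeasurableSet.iInter fun r => MeasurableSet.iInter fun _ => MeasurableSet.iInter fun _ => ?_
  exact measurableSet_le (h1 r s) measurable_const

omit [DecidableEq ι] in
theorem meas_good (μ : Measure (ι → ℝ)) [IsFiniteMeasure μ] {Y : Set (ι → ℝ)} (hY : IsCompact Y)
    (k : ι) (δ : ℝ) (lam : ℝ≥0∞) :
    MeasurableSet {p : (ι → ℝ) × (ι → E n) | Good μ Y p.2 k p.1 δ lam} := by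
  have h1 : MeasurableSet {p : (ι → ℝ) × (ι → E n) | ∃ M j : ℕ, SB μ p.2 k p.1 δ M j} := by
    simp only [ofPred_exists]
    exact MeasurableSet.iUnion fun M => MeasurableSet.iUnion fun j => meas_sb μ k δ M j
  have h2 : MeasurableSet {p : (ι → ℝ) × (ι → E n) | ∃ j : ℕ, SB μ p.2 k p.1 δ lam j} := by
    simp only [ofPred_exists]
    exact MeasurableSet.iUnion fun j => meas_sb μ k δ lam j
  exact (meas_acc hY δ).union (h1.compl.union h2)

theorem good_line (μ : Measure (ι → ℝ)) {Y : Set (ι → ℝ)} (hY : IsCompact Y) (hμ : μ Yᶜ = 0)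
    (a : ι → E n) (k : ι) (y : ι → ℝ) (δ : ℝ) {lam : ℝ≥0∞} (hl : lam ≠ 0) :
    ∀ᵐ x : E n, Good μ Y (Function.update a k x) k y δ lam := by
  set b := Function.update a k 0 with hb
  set π : (ι → ℝ) → E n := fun y' => -((y' - y) k)⁻¹ • TT b (y' - y) with hπ
  set Sec : ℝ → Set (ι → ℝ) := fun r =>
    {y' | ‖y' - y‖ < r ∧ |(y' - y) k| = ‖y' - y‖ ∧ y' ≠ y} with hSec
  have hne : ∀ y', |(y' - y) k| = ‖y' - y‖ → y' ≠ y → (y' - y) k ≠ 0 := by
    intro y' h1 h2 h3
    rw [h3, abs_zero] at h1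
    exact h2 (sub_eq_zero.1 (norm_eq_zero.1 h1.symm))
  have hT : ∀ x y', (y' - y) k ≠ 0 →
      TT (Function.update a k x) (y' - y) = (y' - y) k • (x - π y') := by
    intro x y' h
    rw [TT_update, hπ]
    simp only [neg_smul, sub_neg_eq_add, smul_add, smul_smul, mul_inv_cancel₀ h, one_smul]
    rw [add_comm]
  have hcone : ∀ (x : E n) (r s : ℝ),
      π ⁻¹' ball x s ∩ Sec r = scone (Function.update a k x) k y r s := by
    intro x r s
    ext y'
    constructor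
    · rintro ⟨h1, h2, h3, h4⟩
      refine ⟨h2, h3, ?_⟩
      have h5 := hne y' h3 h4
      rw [hT x y' h5, norm_smul, Real.norm_eq_abs, h3, mul_comm]
      have h6 : 0 < ‖y' - y‖ := norm_pos_iff.2 (sub_ne_zero.2 h4)
      have h7 : ‖x - π y'‖ < s := by
        rw [← dist_eq_norm, dist_comm]; exact h1
      gcongr
    · rintro ⟨h2, h3, h1⟩
      have h4 : y' ≠ y := by
        rintro rfl
        simp at h1
      refine ⟨?_, h2, h3, h4⟩
      have h5 := hne y' h3 h4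
      rw [hT x y' h5, norm_smul, Real.norm_eq_abs, h3, mul_comm] at h1
      have h6 : 0 < ‖y' - y‖ := norm_pos_iff.2 (sub_ne_zero.2 h4)
      have h7 := lt_of_mul_lt_mul_right h1 h6.le
      rw [← dist_eq_norm, dist_comm] at h7
      exact h7
  set Ψ : OuterMeasure (E n) := ⨆ r : {r : ℚ // (0 : ℝ) < r ∧ (r : ℝ) < δ},
    (ENNReal.ofReal (((r : ℚ) : ℝ) ^ n))⁻¹ •
      OuterMeasure.map π (OuterMeasure.restrict (Sec ((r : ℚ) : ℝ)) μ.toOuterMeasure) with hΨ
  have hΨa : ∀ B, Ψ B = ⨆ r : {r : ℚ // (0 : ℝ) < r ∧ (r : ℝ) < δ},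
      (ENNReal.ofReal (((r : ℚ) : ℝ) ^ n))⁻¹ * μ (π ⁻¹' B ∩ Sec ((r : ℚ) : ℝ)) := by
    intro B
    rw [hΨ, OuterMeasure.iSup_apply]
    refine iSup_congr fun r => ?_
    rw [smul_apply, OuterMeasure.map_apply, OuterMeasure.restrict_apply]
    rfl
  have hBd : ∀ (x : E n) (M : ℝ≥0∞) (j : ℕ),
      Bd Ψ x M j ↔ SB μ (Function.update a k x) k y δ M j := by
    intro x M j
    refine forall_congr' fun s => forall_congr' fun hs => forall_congr' fun _ => ?_
    rw [hΨa, iSup_le_iff, Subtype.forall]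
    refine forall_congr' fun r => ?_
    rw [← and_imp]
    refine forall_congr' fun hr' => ?_
    have hr := hr'.1
    have h1 : ENNReal.ofReal ((r : ℝ) ^ n) ≠ 0 := by
      rw [Ne, ENNReal.ofReal_eq_zero, not_le]; positivity
    rw [hcone, ENNReal.inv_mul_le_iff h1 ENNReal.ofReal_ne_top, mul_pow,
      ENNReal.ofReal_mul (by positivity), mul_left_comm]
  set D : Set (E n) := {x | Acc Y (Function.update a k x) y δ} ∩ closedBall 0 (∑ i, ‖b i‖) with hD
  have hDm : MeasurableSet D := by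
    refine MeasurableSet.inter ?_ measurableSet_closedBall
    have h1 : Measurable fun x : E n => (y, Function.update a k x) :=
      measurable_const.prodMk (measurable_update a)
    exact h1 (meas_acc hY δ)
  have hDf : volume D ≠ ⊤ :=
    ((measure_mono inter_subset_right).trans_lt measure_closedBall_lt_top).ne
  have h0 : Ψ Dᶜ = 0 := by
    rw [hΨa]
    refine le_antisymm (iSup_le fun r => ?_) zero_le
    have h1 : μ (π ⁻¹' Dᶜ ∩ Sec ((r : ℚ) : ℝ)) = 0 := by
      refine measure_mono_null ?_ hμ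
      rintro y' ⟨h1, h2, h3, h4⟩ hy'
      have h5 := hne y' h3 h4
      refine h1 ⟨⟨y', hy', h4, (h2.trans r.2.2).le, ?_⟩, ?_⟩
      · rw [hT _ y' h5, sub_self, smul_zero]
      · rw [mem_closedBall_zero_iff, hπ]
        simp only [norm_smul, norm_neg, norm_inv, Real.norm_eq_abs, h3]
        have h6 : 0 < ‖y' - y‖ := norm_pos_iff.2 (sub_ne_zero.2 h4)
        rw [inv_mul_le_iff₀ h6, mul_comm]
        exact TT_norm_le b _
    rw [h1, mul_zero]
  filter_upwards [rado Ψ D hDm hDf h0 hl] with x hx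
  by_cases hxD : x ∈ D
  · exact Or.inl hxD.1
  · right
    by_cases h1 : ∃ M j : ℕ, SB μ (Function.update a k x) k y δ M j
    · right
      obtain ⟨M, j, h1⟩ := h1
      obtain ⟨i, hi⟩ := hx hxD ⟨M, j, (hBd x M j).2 h1⟩
      exact ⟨i, (hBd x lam i).1 hi⟩
    · exact Or.inl h1

theorem ae_of_lines (k : ι) (P : (ι → E n) → Prop) (hP : MeasurableSet {a | P a})
    (h : ∀ a : ι → E n, ∀ᵐ x : E n, P (Function.update a k x)) : ∀ᵐ a : ι → E n, P a := by
  have h1 : ∀ a : ι → E n, ∀ᵐ x : E n, P (a + Pi.single k x) := by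
    intro a
    have h2 := (measurePreserving_add_left (volume : Measure (E n)) (a k)).quasiMeasurePreserving.ae
      (h a)
    filter_upwards [h2] with x hx
    have : Function.update a k (a k + x) = a + Pi.single k x := by
      funext i
      by_cases hi : i = k
      · subst hi; simp
      · simp [hi]
    rwa [this] at hx
  have hm : MeasurableSet {q : (ι → E n) × E n | P (q.1 + Pi.single k q.2)} := by
    have h2 : Measurable fun q : (ι → E n) × E n => q.1 + Pi.single k q.2 := by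
      refine Continuous.measurable ?_
      refine continuous_fst.add ?_
      exact (continuous_single k).comp continuous_snd
    exact h2 hP
  have h3 := (Measure.ae_ae_comm (μ := (volume : Measure (ι → E n))) (ν := (volume : Measure (E n)))
    (p := fun a x => P (a + Pi.single k x)) hm).1 (Eventually.of_forall h1)
  obtain ⟨x, hx⟩ := h3.exists
  have h4 := (measurePreserving_add_right (volume : Measure (ι → E n))
    (-Pi.single k x)).quasiMeasurePreserving.ae hx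
  filter_upwards [h4] with a ha
  simpa using ha

theorem ae_good (μ : Measure (ι → ℝ)) [IsFiniteMeasure μ] {Y : Set (ι → ℝ)} (hY : IsCompact Y)
    (hμ : μ Yᶜ = 0) :
    ∀ᵐ a : ι → E n, ∀ᵐ y ∂μ, ∀ (k : ι) (j l : ℕ),
      Good μ Y a k y (1 / ((j : ℝ) + 1)) (((l : ℝ≥0∞) + 1)⁻¹) := by
  have key : ∀ (k : ι) (j l : ℕ), ∀ᵐ a : ι → E n, ∀ᵐ y ∂μ,
      Good μ Y a k y (1 / ((j : ℝ) + 1)) (((l : ℝ≥0∞) + 1)⁻¹) := by
    intro k j l
    have hm := meas_good (n := n) μ hY k (1 / ((j : ℝ) + 1)) (((l : ℝ≥0∞) + 1)⁻¹)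
    refine (Measure.ae_ae_comm (μ := μ) (ν := (volume : Measure (ι → E n)))
      (p := fun y a => Good μ Y a k y (1 / ((j : ℝ) + 1)) (((l : ℝ≥0∞) + 1)⁻¹)) hm).1
      (Eventually.of_forall fun y => ?_)
    refine ae_of_lines k _ (measurable_prodMk_left (x := y) hm) fun a => ?_
    exact good_line μ hY hμ a k y _ (by simp)
  have h1 : ∀ᵐ a : ι → E n, ∀ (k : ι) (j l : ℕ), ∀ᵐ y ∂μ,
      Good μ Y a k y (1 / ((j : ℝ) + 1)) (((l : ℝ≥0∞) + 1)⁻¹) := by
    simp only [ae_all_iff]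
    exact key
  filter_upwards [h1] with a ha
  simp only [ae_all_iff]
  exact ha

end Pool.Agent.Lib.MP_8115c2_gt.Log
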