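import Pool.Agent.Lib.MP_8115c2_gt.Log.Basic

/-!
The Mickle-Rado lemma and the cone lemma of Federer.
-/

open MeasureTheory Set Metric Filter Topology
open scoped ENNReal

namespace Pool.Agent.Lib.MP_8115c2_gt.Log

/-- Bounded upper density along rational radii. -/
def Bd {n : ℕ} (Ψ : Set (E n) → ℝ≥0∞) (x : E n) (M : ℝ≥0∞) (j : ℕ) : Prop :=
  ∀ s : ℚ, (0 : ℝ) < s → (s : ℝ) < 1 / ((j : ℝ) + 1) → Ψ (ball x s) ≤ M * ENNReal.ofReal ((s : ℝ) ^ n)

theorem rado_aux {n : ℕ} (Ψ : OuterMeasure (E n)) (M j : ℕ) (Z : Set (E n))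
    (hZ : ∀ z ∈ Z, Bd Ψ z M j) (h0 : Ψ (closure Z) = 0) {lam : ℝ≥0∞} (hl : lam ≠ 0) :
    ∀ᵐ x : E n, x ∈ Z → ∃ i, Bd Ψ x lam i := by
  filter_upwards [Besicovitch.ae_tendsto_measure_inter_div_of_measurableSet volume
    (s := (closure Z)ᶜ) isClosed_closure.measurableSet.compl] with x hx hxZ
  have hxc : x ∉ (closure Z)ᶜ := fun h => h (subset_closure hxZ)
  rw [indicator_of_notMem hxc] at hx
  set C : ℝ≥0∞ := ((M : ℝ≥0∞) + 1) * ENNReal.ofReal (14 ^ n) with hC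
  have hC0 : C ≠ 0 := by
    refine mul_ne_zero (by simp) ?_
    simp
  have hCt : C ≠ ⊤ := ENNReal.mul_ne_top (by simp) ENNReal.ofReal_ne_top
  have hη : 0 < lam / C := ENNReal.div_pos hl hCt
  obtain ⟨ρ, hρ, h4⟩ := (nhdsGT_basis (0 : ℝ)).eventually_iff.1 (hx.eventually (gt_mem_nhds hη))
  obtain ⟨i, hi⟩ := exists_nat_one_div_lt (K := ℝ)
    (lt_min (half_pos hρ) (show 0 < 1 / ((j : ℝ) + 1) / 7 by positivity))
  refine ⟨i, fun s hs0 hs => ?_⟩
  have hs1 : (s : ℝ) < ρ / 2 := hs.trans (hi.trans_le (min_le_left _ _))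
  have hs2 : (s : ℝ) < 1 / ((j : ℝ) + 1) / 7 := hs.trans (hi.trans_le (min_le_right _ _))
  have hne : Z.Nonempty := ⟨x, hxZ⟩
  have hr0 : ∀ y ∈ ball x (s : ℝ) \ closure Z, 0 < infDist y Z := by
    intro y hy
    rcases (infDist_nonneg (x := y) (s := Z)).eq_or_lt with h | h
    · exact absurd ((mem_closure_iff_infDist_zero hne).2 h.symm) hy.2
    · exact h
  have hr1 : ∀ y ∈ ball x (s : ℝ) \ closure Z, infDist y Z ≤ s := fun y hy =>
    (infDist_le_dist_of_mem hxZ).trans (le_of_lt hy.1)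
  obtain ⟨u, hut, huc, hcov, hsum⟩ := vitali_sum (ball x (s : ℝ) \ closure Z) id
    (fun y => infDist y Z) s hr0 hr1 ((closure Z)ᶜ ∩ closedBall x (2 * s)) (fun y hy w hw => by
      refine ⟨fun hwc => ?_, ?_⟩
      · have h5 : Disjoint (ball y (infDist y Z)) (closure Z) :=
          (disjoint_ball_infDist (x := y) (s := Z)).closure_right isOpen_ball
        exact (Set.disjoint_left.1 h5) hw hwc
      · have h5 := dist_triangle w y x
        have h6 : dist w y < infDist y Z := hw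
        have h7 : dist y x < s := hy.1
        have := hr1 y hy
        exact mem_closedBall.2 (by linarith))
  have hball : ∀ y ∈ u, Ψ (ball y (4 * infDist y Z)) ≤
      M * (ENNReal.ofReal (7 ^ n) * ENNReal.ofReal (infDist y Z ^ n)) := by
    intro y hy
    have h5 := hr0 y (hut hy)
    have h6 := hr1 y (hut hy)
    obtain ⟨z, hz, hzd⟩ := (infDist_lt_iff hne).1 (show infDist y Z < 2 * infDist y Z by linarith)
    obtain ⟨q, hq1, hq2⟩ := exists_rat_btwn (show 6 * infDist y Z < 7 * infDist y Z by linarith)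
    have h7 : ball y (4 * infDist y Z) ⊆ ball z q := by
      intro w hw
      have h8 : dist w y < 4 * infDist y Z := hw
      have h9 := dist_triangle w y z
      exact mem_ball.2 (by linarith)
    refine (measure_mono h7).trans ((hZ z hz q (by linarith) (by linarith)).trans ?_)
    rw [← ENNReal.ofReal_mul (by positivity), ← mul_pow]
    gcongr
    linarith
  have hdens := h4 (show 2 * (s : ℝ) ∈ Ioo 0 ρ from ⟨by linarith, by linarith⟩)
  have h6 : volume (closedBall x (2 * (s : ℝ))) ≠ 0 :=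
    (measure_closedBall_pos _ _ (by linarith)).ne'
  have h7 : volume (closedBall x (2 * (s : ℝ))) ≠ ⊤ := measure_closedBall_lt_top.ne
  rw [ENNReal.div_lt_iff (Or.inl h6) (Or.inl h7), vol_closedBall _ (by linarith)] at hdens
  have hsum2 : (∑' b : u, ENNReal.ofReal (infDist (b : E n) Z ^ n)) ≤
      lam / C * ENNReal.ofReal ((2 * (s : ℝ)) ^ n) := by
    have h8 := hsum.trans hdens.le
    rw [← mul_assoc] at h8
    exact (ENNReal.mul_le_mul_iff_left (om_pos n).ne' (om_ne_top n)).1 h8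
  have hsub : ball x (s : ℝ) ⊆ closure Z ∪ ⋃ y ∈ u, ball y (4 * infDist y Z) := by
    intro w hw
    by_cases hwc : w ∈ closure Z
    · exact Or.inl hwc
    · obtain ⟨b, hb, hwb⟩ := hcov w ⟨hw, hwc⟩
      exact Or.inr (mem_biUnion hb hwb)
  calc Ψ (ball x s) ≤ Ψ (closure Z) + Ψ (⋃ y ∈ u, ball y (4 * infDist y Z)) :=
        (measure_mono hsub).trans (measure_union_le _ _)
    _ ≤ 0 + ∑' y : u, Ψ (ball (y : E n) (4 * infDist (y : E n) Z)) := by
        rw [h0]; gcongr; exact measure_biUnion_le Ψ huc _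
    _ ≤ 0 + ∑' y : u, M * (ENNReal.ofReal (7 ^ n) * ENNReal.ofReal (infDist (y : E n) Z ^ n)) := by
        gcongr with y
        exact hball y y.2
    _ = M * ENNReal.ofReal (7 ^ n) * ∑' y : u, ENNReal.ofReal (infDist (y : E n) Z ^ n) := by
        rw [zero_add, ENNReal.tsum_mul_left, ENNReal.tsum_mul_left, mul_assoc]
    _ ≤ (M + 1) * ENNReal.ofReal (7 ^ n) * (lam / C * ENNReal.ofReal ((2 * (s : ℝ)) ^ n)) := by
        gcongr
        exact le_self_add
    _ = C * (lam / C) * ENNReal.ofReal ((s : ℝ) ^ n) := by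
        rw [hC, mul_pow, ENNReal.ofReal_mul (by positivity),
          show (14 : ℝ) ^ n = 7 ^ n * 2 ^ n by rw [← mul_pow]; norm_num,
          ENNReal.ofReal_mul (by positivity)]
        ring
    _ = _ := by rw [ENNReal.mul_div_cancel hC0 hCt]

/-- The Mickle-Rado lemma. -/
theorem rado {n : ℕ} (Ψ : OuterMeasure (E n)) (D : Set (E n)) (hD : MeasurableSet D)
    (hDf : volume D ≠ ⊤) (h0 : Ψ Dᶜ = 0) {lam : ℝ≥0∞} (hl : lam ≠ 0) :
    ∀ᵐ x : E n, x ∉ D → (∃ M j : ℕ, Bd Ψ x M j) → ∃ i, Bd Ψ x lam i := by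
  have key : ∀ η : ℝ≥0∞, η ≠ 0 →
      volume {x | ¬ (x ∉ D → (∃ M j : ℕ, Bd Ψ x M j) → ∃ i, Bd Ψ x lam i)} ≤ η := by
    intro η hη
    obtain ⟨O, hDO, hO, -, hOd⟩ := hD.exists_isOpen_sdiff_lt hDf hη
    have h1 : ∀ᵐ x : E n, ∀ M j : ℕ, x ∈ {z | Bd Ψ z M j} \ O → ∃ i, Bd Ψ x lam i := by
      rw [ae_all_iff]; intro M
      rw [ae_all_iff]; intro j
      refine rado_aux Ψ M j _ (fun z hz => hz.1) ?_ hl
      refine measure_mono_null ?_ h0
      exact (closure_minimal (fun z hz => hz.2) hO.isClosed_compl).trans (compl_subset_compl.2 hDO)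
    rw [ae_iff] at h1
    calc _ ≤ volume ((O \ D) ∪ {x | ¬ ∀ M j : ℕ, x ∈ {z | Bd Ψ z M j} \ O →
          ∃ i, Bd Ψ x lam i}) := by
          refine measure_mono fun x hx => ?_
          by_cases hxO : x ∈ O
          · left
            refine ⟨hxO, fun hxD => hx fun h => absurd hxD h⟩
          · right
            intro h
            exact hx fun _ ⟨M, j, hMj⟩ => h M j ⟨hMj, hxO⟩
      _ ≤ volume (O \ D) + 0 := by rw [← h1]; exact measure_union_le _ _
      _ ≤ η := by rw [add_zero]; exact hOd.le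
  rw [ae_iff]
  refine le_antisymm (le_of_forall_gt_imp_ge_of_dense fun η hη => key η hη.ne') zero_le

section Cone
variable {F : Type*} [NormedAddCommGroup F] [NormedSpace ℝ F] {n : ℕ}

/-- The cone around the kernel of `T`. -/
def cone (T : F →L[ℝ] E n) (y : F) (r s : ℝ) : Set F :=
  {y' | ‖y' - y‖ < r ∧ ‖T (y' - y)‖ < s * ‖y' - y‖}

/-- A set on which `T` has a Lipschitz inverse. -/
def Graph (T : F →L[ℝ] E n) (Γ : Set F) : Prop :=
  ∃ s > (0 : ℝ), ∀ x ∈ Γ, ∀ y ∈ Γ, s * ‖x - y‖ ≤ ‖T (x - y)‖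

theorem Graph.mono {T : F →L[ℝ] E n} {Γ Γ' : Set F} (h : Graph T Γ) (h' : Γ' ⊆ Γ) : Graph T Γ' :=
  let ⟨s, hs, h1⟩ := h
  ⟨s, hs, fun x hx y hy => h1 x (h' hx) y (h' hy)⟩

theorem Graph.closure {T : F →L[ℝ] E n} {Γ : Set F} (h : Graph T Γ) : Graph T (closure Γ) := by
  obtain ⟨s, hs, h1⟩ := h
  refine ⟨s, hs, fun x hx y hy => ?_⟩
  have hc : IsClosed {p : F × F | s * ‖p.1 - p.2‖ ≤ ‖T (p.1 - p.2)‖} :=
    isClosed_le (by fun_prop) (by fun_prop)
  have h2 : (x, y) ∈ _root_.closure (Γ ×ˢ Γ) := by rw [closure_prod_eq]; exact ⟨hx, hy⟩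
  exact closure_minimal (s := Γ ×ˢ Γ) (fun p hp => h1 p.1 hp.1 p.2 hp.2) hc h2

theorem cone_ball (T : F →L[ℝ] E n) {τ : ℝ} (hτ : 0 ≤ τ) (hT : ∀ w, ‖T w‖ ≤ τ * ‖w‖)
    (μ : OuterMeasure F)
    (A : Set F) (q : F) {ρ s : ℝ} (hρ : 0 < ρ) (hs : 0 < s) (hs1 : s ≤ 1) (hA : A ⊆ ball q ρ)
    {lam : ℝ≥0∞}
    (h : ∀ y ∈ A, ∀ r, 0 < r → r ≤ 6 * ρ → μ (cone T y r s) ≤ lam * ENNReal.ofReal ((r * s) ^ n)) :
    μ {x ∈ A | ∃ y ∈ A, ‖T (y - x)‖ < s / 16 * ‖y - x‖} ≤
      2 * lam * ENNReal.ofReal ((192 * (τ + 1) * ρ) ^ n) := by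
  set B := {x ∈ A | ∃ y ∈ A, ‖T (y - x)‖ < s / 16 * ‖y - x‖} with hB
  have hAA : ∀ x ∈ A, ∀ y ∈ A, ‖y - x‖ ≤ 2 * ρ := by
    intro x hx y hy
    have h1 : dist x q < ρ := hA hx
    have h2 : dist y q < ρ := hA hy
    have h3 := dist_triangle_right y x q
    rw [dist_eq_norm] at h3
    linarith
  set hh : F → ℝ := fun x => sSup ((fun y => ‖y - x‖) '' {y ∈ A | ‖T (y - x)‖ < s / 16 * ‖y - x‖})
    with hhh
  have hbdd : ∀ x ∈ A, BddAbove ((fun y => ‖y - x‖) ''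
      {y ∈ A | ‖T (y - x)‖ < s / 16 * ‖y - x‖}) := by
    intro x hx
    refine ⟨2 * ρ, ?_⟩
    rintro _ ⟨y, hy, rfl⟩
    exact hAA x hx y hy.1
  have hle : ∀ x ∈ A, ∀ y ∈ A, ‖T (y - x)‖ < s / 16 * ‖y - x‖ → ‖y - x‖ ≤ hh x :=
    fun x hx y hy hxy => le_csSup (hbdd x hx) ⟨y, ⟨hy, hxy⟩, rfl⟩
  have hpos : ∀ x ∈ B, 0 < hh x := by
    rintro x ⟨hx, y, hy, hxy⟩
    refine lt_of_lt_of_le ?_ (hle x hx y hy hxy)
    rcases (norm_nonneg (y - x)).eq_or_lt with h0 | h0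
    · rw [← h0, mul_zero] at hxy
      exact absurd hxy (not_lt.2 (norm_nonneg _))
    · exact h0
  have hup : ∀ x ∈ B, hh x ≤ 2 * ρ := by
    rintro x ⟨hx, y, hy, hxy⟩
    refine csSup_le ⟨_, y, ⟨hy, hxy⟩, rfl⟩ ?_
    rintro _ ⟨y, hy, rfl⟩
    exact hAA x hx y hy.1
  have htube : ∀ x ∈ B, μ {z ∈ A | T z ∈ ball (T x) (4 * (s * hh x / 64))} ≤
      2 * lam * (ENNReal.ofReal (192 ^ n) * ENNReal.ofReal ((s * hh x / 64) ^ n)) := by
    intro x hxB
    have hp := hpos x hxB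
    have hu := hup x hxB
    obtain ⟨hx, y0, hy0, hxy0⟩ := hxB
    obtain ⟨_, ⟨y, ⟨hy, hxy⟩, rfl⟩, hy3⟩ := exists_lt_of_lt_csSup
      (s := (fun y => ‖y - x‖) '' {y ∈ A | ‖T (y - x)‖ < s / 16 * ‖y - x‖})
      ⟨_, y0, ⟨hy0, hxy0⟩, rfl⟩ (show 3 / 4 * hh x < hh x by linarith)
    have hy3' : 3 / 4 * hh x < ‖y - x‖ := hy3
    have hy4 := hle x hx y hy hxy
    have hsub : {z ∈ A | T z ∈ ball (T x) (4 * (s * hh x / 64))} ⊆
        cone T x (3 * hh x) s ∪ cone T y (3 * hh x) s := by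
      rintro z ⟨hz, hzT⟩
      rw [mem_ball, dist_eq_norm, ← map_sub] at hzT
      have hz1 : ‖z - x‖ ≤ hh x := by
        by_contra hcon
        push Not at hcon
        have : ‖T (z - x)‖ < s / 16 * ‖z - x‖ := by nlinarith
        linarith [hle x hx z hz this]
      by_cases hc : ‖T (z - x)‖ < s * ‖z - x‖
      · exact Or.inl ⟨by linarith, hc⟩
      · right
        push Not at hc
        have hz2 : ‖z - x‖ < hh x / 16 := by
          by_contra hcon
          push Not at hcon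
          nlinarith
        have h5 : ‖y - x‖ ≤ ‖z - y‖ + ‖z - x‖ := by
          calc ‖y - x‖ = ‖(z - x) - (z - y)‖ := by congr 1; abel
            _ ≤ _ := by rw [add_comm]; exact norm_sub_le _ _
        have h6 : ‖z - y‖ ≤ ‖z - x‖ + ‖y - x‖ := by
          calc ‖z - y‖ = ‖(z - x) - (y - x)‖ := by congr 1; abel
            _ ≤ _ := norm_sub_le _ _
        have h7 : ‖T (z - y)‖ ≤ ‖T (z - x)‖ + ‖T (y - x)‖ := by
          calc ‖T (z - y)‖ = ‖T (z - x) - T (y - x)‖ := by rw [← map_sub]; congr 2; abel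
            _ ≤ _ := norm_sub_le _ _
        refine ⟨by linarith, ?_⟩
        have h8 : s / 16 * ‖y - x‖ ≤ s / 16 * hh x := by gcongr
        have h9 : s * (11 / 16 * hh x) ≤ s * ‖z - y‖ := by gcongr; linarith
        nlinarith
    have he : ENNReal.ofReal ((3 * hh x * s) ^ n) =
        ENNReal.ofReal (192 ^ n) * ENNReal.ofReal ((s * hh x / 64) ^ n) := by
      rw [← ENNReal.ofReal_mul (by positivity), ← mul_pow]
      congr 2; ring
    calc _ ≤ μ (cone T x (3 * hh x) s) + μ (cone T y (3 * hh x) s) := (measure_mono hsub).trans (measure_union_le _ _)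
      _ ≤ lam * ENNReal.ofReal ((3 * hh x * s) ^ n) + lam * ENNReal.ofReal ((3 * hh x * s) ^ n) :=
          add_le_add (h x hx _ (by linarith) (by linarith)) (h y hy _ (by linarith) (by linarith))
      _ = _ := by rw [he]; ring
  obtain ⟨u, hut, huc, hcov, hsum⟩ := vitali_sum B (fun x => T x) (fun x => s * hh x / 64) ρ
    (fun x hx => by have := hpos x hx; positivity)
    (fun x hx => by have := hup x hx; have := hpos x hx; nlinarith)
    (ball (T q) ((τ + 1) * ρ)) (fun x hx w hw => by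
      have h1 := hup x hx
      have h2 := hpos x hx
      have h3 : dist w (T x) < s * hh x / 64 := hw
      have h4 : dist (T x) (T q) ≤ τ * ρ := by
        rw [dist_eq_norm, ← map_sub]
        refine (hT _).trans ?_
        gcongr
        rw [← dist_eq_norm]
        exact le_of_lt (hA hx.1)
      have h5 := dist_triangle w (T x) (T q)
      refine mem_ball.2 ?_
      nlinarith)
  rw [vol_ball _ (by positivity)] at hsum
  have hsum2 := (ENNReal.mul_le_mul_iff_left (om_pos n).ne' (om_ne_top n)).1 hsum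
  have hsub : B ⊆ ⋃ x ∈ u, {z ∈ A | T z ∈ ball (T x) (4 * (s * hh x / 64))} := by
    intro z hz
    obtain ⟨b, hb, hzb⟩ := hcov z hz
    exact mem_biUnion hb ⟨hz.1, hzb⟩
  calc μ B ≤ ∑' x : u, μ {z ∈ A | T z ∈ ball (T x) (4 * (s * hh x / 64))} :=
        (measure_mono hsub).trans (measure_biUnion_le μ huc _)
    _ ≤ ∑' x : u, 2 * lam * (ENNReal.ofReal (192 ^ n) * ENNReal.ofReal ((s * hh x / 64) ^ n)) :=
        ENNReal.tsum_le_tsum fun x => htube x (hut x.2)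
    _ = 2 * lam * (ENNReal.ofReal (192 ^ n) * ∑' x : u, ENNReal.ofReal ((s * hh x / 64) ^ n)) := by
        rw [ENNReal.tsum_mul_left, ENNReal.tsum_mul_left]
    _ ≤ 2 * lam * (ENNReal.ofReal (192 ^ n) * ENNReal.ofReal (((τ + 1) * ρ) ^ n)) := by gcongr
    _ = _ := by
        rw [← ENNReal.ofReal_mul (by positivity), ← mul_pow, mul_assoc 192]

end Cone

end Pool.Agent.Lib.MP_8115c2_gt.Log
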