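import Pool.Agent.Lib.MP_8115c2_gt.Log.Proj

/-!
The projection theorem of Besicovitch and Federer, in the form needed here.
-/

open MeasureTheory Set Metric Filter Topology
open scoped ENNReal

namespace Pool.Agent.Lib.MP_8115c2_gt.Log

variable {ι : Type} [Fintype ι] [DecidableEq ι] {n : ℕ}

omit [DecidableEq ι] in
theorem exists_sector (w : ι → ℝ) (hw : w ≠ 0) : ∃ k, |w k| = ‖w‖ := by
  obtain ⟨i, -⟩ := Function.ne_iff.1 hw
  obtain ⟨k, -, hk⟩ := Finset.exists_max_image Finset.univ (fun k => |w k|) ⟨i, Finset.mem_univ i⟩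
  refine ⟨k, le_antisymm (norm_le_pi_norm w k) ?_⟩
  exact (pi_norm_le_iff_of_nonneg (abs_nonneg _)).2 fun j => hk j (Finset.mem_univ j)

omit [DecidableEq ι] in
theorem SB.mono {μ : Measure (ι → ℝ)} {a : ι → E n} {k : ι} {y : ι → ℝ} {δ : ℝ} {M : ℝ≥0∞}
    {i i' : ℕ} (h : SB μ a k y δ M i) (hi : i ≤ i') : SB μ a k y δ M i' := by
  intro s hs hs'
  refine h s hs (hs'.trans_le ?_)
  have : (i : ℝ) ≤ i' := by exact_mod_cast hi
  gcongr

omit [DecidableEq ι] in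
theorem cone_bound {μ : Measure (ι → ℝ)} {a : ι → E n} {y : ι → ℝ} {δ : ℝ} {M : ℝ≥0∞} {i : ℕ}
    (h : ∀ k, SB μ a k y δ M i) {r : ℝ} (hr : 0 < r) (hrδ : 2 * r ≤ δ) :
    μ (cone (TT a) y r (1 / ((i : ℝ) + 2))) ≤
      (Fintype.card ι * M * ENNReal.ofReal (2 ^ n)) *
        ENNReal.ofReal ((r * (1 / ((i : ℝ) + 2))) ^ n) := by
  obtain ⟨r', h1, h2⟩ := exists_rat_btwn (show r < 2 * r by linarith)
  have hs : (((1 / ((i : ℚ) + 2) : ℚ)) : ℝ) = 1 / ((i : ℝ) + 2) := by push_cast; rfl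
  have hsub : cone (TT a) y r (1 / ((i : ℝ) + 2)) ⊆ ⋃ k, scone a k y r' (1 / ((i : ℝ) + 2)) := by
    rintro y' ⟨h3, h4⟩
    have h5 : y' - y ≠ 0 := by
      intro h5
      rw [h5] at h4
      simp at h4
    obtain ⟨k, hk⟩ := exists_sector _ h5
    exact mem_iUnion.2 ⟨k, h3.trans h1, hk, h4⟩
  have hk : ∀ k, μ (scone a k y r' (1 / ((i : ℝ) + 2))) ≤
      M * (ENNReal.ofReal (2 ^ n) * ENNReal.ofReal ((r * (1 / ((i : ℝ) + 2))) ^ n)) := by
    intro k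
    have h3 := h k (1 / ((i : ℚ) + 2)) (by rw [hs]; positivity)
      (by rw [hs]; gcongr; norm_num) r' (by linarith) (by linarith)
    rw [hs] at h3
    refine h3.trans ?_
    rw [← ENNReal.ofReal_mul (by positivity), ← mul_pow, ← mul_assoc 2]
    have : (0 : ℝ) < r' := by linarith
    gcongr
  calc _ ≤ ∑ k, μ (scone a k y r' (1 / ((i : ℝ) + 2))) :=
        (measure_mono hsub).trans (measure_iUnion_fintype_le _ _)
    _ ≤ ∑ _k : ι, M * (ENNReal.ofReal (2 ^ n) * ENNReal.ofReal ((r * (1 / ((i : ℝ) + 2))) ^ n)) :=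
        Finset.sum_le_sum fun k _ => hk k
    _ = _ := by
        rw [Finset.sum_const, Finset.card_univ, nsmul_eq_mul]; ring

omit [DecidableEq ι] in
theorem piece_rect (hn : 0 < n) {Y : Set (ι → ℝ)} (hYf : μH[n] Y ≠ ⊤) (T : (ι → ℝ) →L[ℝ] E n)
    {τ : ℝ} (hτ : 0 ≤ τ) (hT : ∀ w, ‖T w‖ ≤ τ * ‖w‖) (G : Set (ι → ℝ)) (hG : G ⊆ Y) {δ s : ℝ}
    (hδ : 0 < δ) (hs : 0 < s) (hs1 : s ≤ 1) {lam : ℝ≥0∞}
    (hlam : 2 * lam * ENNReal.ofReal ((576 * (τ + 1)) ^ n) ≤ 2⁻¹)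
    (h : ∀ y ∈ G, ∀ r, 0 < r → 2 * r ≤ δ →
      (μH[n] : Measure (ι → ℝ)).restrict Y (cone T y r s) ≤ lam * ENNReal.ofReal ((r * s) ^ n)) :
    ∃ (W : Set (ι → ℝ)) (Γ : ℕ × ℚ → Set (ι → ℝ)), G ⊆ W ∪ ⋃ i, Γ i ∧ μH[n] W = 0 ∧
      ∀ i, Graph T (Γ i) := by
  set q := TopologicalSpace.denseSeq (ι → ℝ) with hq
  set A : ℕ × ℚ → Set (ι → ℝ) := fun p => G ∩ ball (q p.1) p.2 with hA
  set Γ : ℕ × ℚ → Set (ι → ℝ) := fun p =>
    {x ∈ A p | ¬ ∃ y ∈ A p, ‖T (y - x)‖ < s / 16 * ‖y - x‖} with hΓ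
  refine ⟨G \ ⋃ i, Γ i, Γ, fun x hx => ?_, ?_, fun p => ⟨s / 16, by positivity, ?_⟩⟩
  · by_cases h1 : x ∈ ⋃ i, Γ i
    · exact Or.inr h1
    · exact Or.inl ⟨hx, h1⟩
  · refine null_of_small n _ ?_ (ρ := δ / 36) (by positivity) ?_ hn
    · exact ((measure_mono (sdiff_subset.trans hG)).trans_lt hYf.lt_top).ne
    intro x hx d hd hdδ
    obtain ⟨m, hm⟩ := (TopologicalSpace.denseRange_denseSeq (ι → ℝ)).exists_dist_lt x hd
    obtain ⟨ρ, hρ1, hρ2⟩ := exists_rat_btwn (show 2 * d < 3 * d by linarith)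
    have hρ : (0 : ℝ) < ρ := by linarith
    have h1 := cone_ball T hτ hT ((μH[n] : Measure (ι → ℝ)).restrict Y).toOuterMeasure (A (m, ρ))
      (q m) hρ hs hs1 inter_subset_right (lam := lam)
      (fun y hy r hr hr' => h y hy.1 r hr (by linarith))
    have hsub : (G \ ⋃ i, Γ i) ∩ closedBall x d ⊆
        {x ∈ A (m, ρ) | ∃ y ∈ A (m, ρ), ‖T (y - x)‖ < s / 16 * ‖y - x‖} := by
      rintro z ⟨⟨hzG, hz⟩, hzd⟩
      have hzA : z ∈ A (m, ρ) := by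
        refine ⟨hzG, mem_ball.2 ?_⟩
        have h2 := dist_triangle z x (q m)
        have h3 : dist z x ≤ d := hzd
        simp only
        linarith
      refine ⟨hzA, ?_⟩
      by_contra hc
      exact hz (mem_iUnion.2 ⟨(m, ρ), hzA, hc⟩)
    calc μH[n] ((G \ ⋃ i, Γ i) ∩ closedBall x d)
        = (μH[n] : Measure (ι → ℝ)).restrict Y ((G \ ⋃ i, Γ i) ∩ closedBall x d) :=
          (Measure.restrict_eq_self _ (inter_subset_left.trans (sdiff_subset.trans hG))).symm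
      _ ≤ 2 * lam * ENNReal.ofReal ((192 * (τ + 1) * ρ) ^ n) := (measure_mono hsub).trans h1
      _ ≤ 2 * lam * ENNReal.ofReal ((576 * (τ + 1) * d) ^ n) := by
          gcongr 2 * lam * ENNReal.ofReal (?_ ^ n)
          nlinarith
      _ = 2 * lam * ENNReal.ofReal ((576 * (τ + 1)) ^ n) * ENNReal.ofReal (d ^ n) := by
          rw [mul_pow, ENNReal.ofReal_mul (by positivity), ← mul_assoc]
      _ ≤ _ := by gcongr
  · intro x hx y hy
    by_contra hc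
    exact hy.2 ⟨x, hx.1, not_le.1 hc⟩

theorem struct (hn : 0 < n) {Y : Set (ι → ℝ)} (hY : IsCompact Y) (hYf : μH[n] Y ≠ ⊤) :
    ∀ᵐ a : ι → E n, ∃ (Z : Set (ι → ℝ)) (Γ : ℕ → Set (ι → ℝ)), Y ⊆ Z ∪ ⋃ i, Γ i ∧
      volume (TT a '' Z) = 0 ∧ ∀ i, Graph (TT a) (Γ i) := by
  set μ := (μH[n] : Measure (ι → ℝ)).restrict Y with hμ
  have : IsFiniteMeasure μ := ⟨by rw [hμ, Measure.restrict_apply_univ]; exact hYf.lt_top⟩
  have hμc : μ Yᶜ = 0 := by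
    rw [hμ, Measure.restrict_apply hY.measurableSet.compl]; simp
  filter_upwards [ae_good (n := n) μ hY hμc] with a ha
  set T := TT a with hT
  set τ := ∑ i, ‖a i‖ with hτ
  have hτ0 : 0 ≤ τ := Finset.sum_nonneg fun i _ => norm_nonneg _
  have hTn : ∀ w, ‖T w‖ ≤ τ * ‖w‖ := TT_norm_le a
  have hTd : ∀ x y, dist (T x) (T y) ≤ τ * dist x y := by
    intro x y
    rw [dist_eq_norm, dist_eq_norm, ← map_sub]
    exact hTn _
  have hTl : LipschitzWith ⟨τ, hτ0⟩ T := LipschitzWith.of_dist_le_mul hTd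
  set C : ℝ≥0∞ := 2 * (Fintype.card ι * ENNReal.ofReal (2 ^ n)) *
    ENNReal.ofReal ((576 * (τ + 1)) ^ n) with hC
  have hCt : 2 * C ≠ ⊤ := by
    rw [hC]; finiteness
  obtain ⟨l, hl⟩ := ENNReal.exists_nat_gt hCt
  have hlam : 2 * (Fintype.card ι * ((l : ℝ≥0∞) + 1)⁻¹ * ENNReal.ofReal (2 ^ n)) *
      ENNReal.ofReal ((576 * (τ + 1)) ^ n) ≤ 2⁻¹ := by
    have h1 : 2 * (Fintype.card ι * ((l : ℝ≥0∞) + 1)⁻¹ * ENNReal.ofReal (2 ^ n)) *
      ENNReal.ofReal ((576 * (τ + 1)) ^ n) = C * ((l : ℝ≥0∞) + 1)⁻¹ := by rw [hC]; ring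
    rw [h1, ENNReal.le_inv_iff_mul_le, mul_right_comm, ← div_eq_mul_inv,
      ENNReal.div_le_iff (by simp) (by simp), one_mul, mul_comm]
    exact hl.le.trans le_self_add
  set G : ℕ × ℕ → Set (ι → ℝ) := fun p =>
    {y ∈ Y | ∀ k, SB μ a k y (1 / ((p.1 : ℝ) + 1)) ((l : ℝ≥0∞) + 1)⁻¹ p.2} with hG
  have hpiece : ∀ p : ℕ × ℕ, ∃ (W : Set (ι → ℝ)) (Γ : ℕ × ℚ → Set (ι → ℝ)), G p ⊆ W ∪ ⋃ i, Γ i ∧
      μH[n] W = 0 ∧ ∀ i, Graph T (Γ i) := by
    intro p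
    refine piece_rect hn hYf T hτ0 hTn (G p) (fun y hy => hy.1) (δ := 1 / ((p.1 : ℝ) + 1))
      (s := 1 / ((p.2 : ℝ) + 2)) (by positivity) (by positivity) ?_ hlam
      (fun y hy r hr hr' => cone_bound hy.2 hr hr')
    rw [div_le_one (by positivity)]
    have : (0 : ℝ) ≤ p.2 := Nat.cast_nonneg _
    linarith
  choose W Γ hWΓ hW hΓ using hpiece
  obtain ⟨e, he⟩ := exists_surjective_nat ((ℕ × ℕ) × (ℕ × ℚ))
  set Z0 : Set (ι → ℝ) := {y ∈ Y | ¬ ∀ (k : ι) (j l : ℕ),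
      Good μ Y a k y (1 / ((j : ℝ) + 1)) (((l : ℝ≥0∞) + 1)⁻¹)} with hZ0
  set N1 : Set (E n) := {z | (Y ∩ T ⁻¹' {z}).Infinite} with hN1
  set N2 : Set (E n) := {z | ¬ ∃ M : ℕ, ∃ ρ > (0 : ℝ), ∀ r : ℝ, 0 < r → r < ρ →
      μ.map T (ball z r) ≤ M * ENNReal.ofReal (r ^ n)} with hN2
  refine ⟨(Z0 ∪ ⋃ p, W p) ∪ T ⁻¹' (N1 ∪ N2), fun m => Γ (e m).1 (e m).2, ?_, ?_,
    fun m => hΓ _ _⟩
  · intro y hy
    by_cases h0 : y ∈ Z0
    · exact Or.inl (Or.inl (Or.inl h0))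
    by_cases h1 : T y ∈ N1
    · exact Or.inl (Or.inr (Or.inl h1))
    by_cases h2 : T y ∈ N2
    · exact Or.inl (Or.inr (Or.inr h2))
    have h0' : ∀ (k : ι) (j l : ℕ), Good μ Y a k y (1 / ((j : ℝ) + 1)) (((l : ℝ≥0∞) + 1)⁻¹) := by
      by_contra hc
      exact h0 ⟨hy, hc⟩
    have h1' : (Y ∩ T ⁻¹' {T y}).Finite := not_infinite.1 h1
    obtain ⟨M, ρ, hρ, hM⟩ := not_not.1 h2
    obtain ⟨j, hj⟩ : ∃ j : ℕ, ¬ Acc Y a y (1 / ((j : ℝ) + 1)) := by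
      have h3 : IsClosed ((Y ∩ T ⁻¹' {T y}) \ {y}) := (h1'.subset sdiff_subset).isClosed
      obtain ⟨ε, hε, h4⟩ := Metric.isOpen_iff.1 h3.isOpen_compl y (fun h => h.2 rfl)
      obtain ⟨j, hj⟩ := exists_nat_one_div_lt hε
      refine ⟨j, ?_⟩
      rintro ⟨y', h5, h6, h7, h8⟩
      refine h4 (show y' ∈ ball y ε from ?_) ⟨⟨h5, ?_⟩, h6⟩
      · rw [mem_ball, dist_eq_norm]; linarith
      · rw [map_sub, sub_eq_zero] at h8
        exact h8
    have h3 : ∀ k, ∃ i, SB μ a k y (1 / ((j : ℝ) + 1)) (((l : ℝ≥0∞) + 1)⁻¹) i := by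
      intro k
      rcases h0' k j l with h | h | h
      · exact absurd h hj
      · obtain ⟨j', hj'⟩ := exists_nat_one_div_lt hρ
        refine absurd ⟨M, j', fun s hs hs' r hr hr' => ?_⟩ h
        have h4 : (r : ℝ) < 1 := by
          refine hr'.trans_le ?_
          rw [div_le_one (by positivity)]
          have : (0 : ℝ) ≤ j := Nat.cast_nonneg _
          linarith
        refine le_trans ?_ (hM (r * s) (by positivity) (by nlinarith))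
        rw [Measure.map_apply T.continuous.measurable measurableSet_ball]
        refine measure_mono ?_
        rintro y' ⟨h5, -, h6⟩
        rw [mem_preimage, mem_ball, dist_eq_norm, ← map_sub]
        refine h6.trans_le ?_
        rw [mul_comm (r : ℝ)]
        gcongr
      · exact h
    choose i hi using h3
    have h4 : y ∈ G (j, Finset.univ.sup i) :=
      ⟨hy, fun k => (hi k).mono (Finset.le_sup (Finset.mem_univ k))⟩
    rcases hWΓ _ h4 with h | h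
    · exact Or.inl (Or.inl (Or.inr (mem_iUnion.2 ⟨_, h⟩)))
    · obtain ⟨p, hp⟩ := mem_iUnion.1 h
      obtain ⟨m, hm⟩ := he ((j, Finset.univ.sup i), p)
      refine Or.inr (mem_iUnion.2 ⟨m, ?_⟩)
      rw [hm]
      exact hp
  · rw [image_union]
    refine measure_union_null (vol_image_null T hTl _ (measure_union_null ?_ ?_)) ?_
    · rw [← Measure.restrict_eq_self _ (show Z0 ⊆ Y from fun y hy => hy.1)]
      exact measure_mono_null (fun y hy => hy.2) (ae_iff.1 ha)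
    · exact measure_iUnion_null hW
    · refine measure_mono_null (image_preimage_subset _ _) (measure_union_null ?_ ?_)
      · exact vol_infinite T hτ0 hTd Y hYf
      · exact ae_iff.1 (vol_dens (μ.map T))

end Pool.Agent.Lib.MP_8115c2_gt.Log
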