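import Pool.Agent.Lib.MP_8115c2_gt.Log.Basic

/-!
A volume bound in terms of the average of the support function over sign vectors.
-/

open MeasureTheory Set Metric Filter Topology
open scoped ENNReal

namespace Pool.Agent.Lib.MP_8115c2_gt.Log

/-- The sign attached to a Boolean. -/
def sg (b : Bool) : ℝ := if b then 1 else -1

theorem sum_cons {n : ℕ} (H : (Fin (n + 1) → Bool) → ℝ) :
    ∑ ε, H ε = ∑ ε : Fin n → Bool, H (Fin.cons true ε) + ∑ ε : Fin n → Bool, H (Fin.cons false ε) := by
  rw [← (Fin.consEquiv fun _ : Fin (n + 1) => Bool).sum_comp, Fintype.sum_prod_type,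
    Fintype.sum_bool]
  rfl

theorem lint_Ioi {l : ℝ} (hl : 0 < l) (A m : ℝ) (hA : 0 ≤ A) :
    ∫⁻ t in Ioi m, ENNReal.ofReal (A * Real.exp (-l * t)) =
      ENNReal.ofReal (A * (Real.exp (-l * m) / l)) := by
  rw [← ofReal_integral_eq_lintegral_ofReal
    ((integrableOn_exp_mul_Ioi (a := -l) (by linarith) m).const_mul A)
    (Eventually.of_forall fun t => by positivity), integral_const_mul,
    integral_exp_mul_Ioi (by linarith), neg_div_neg_eq]

theorem lint_Iic {l : ℝ} (hl : 0 < l) (A m : ℝ) (hA : 0 ≤ A) :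
    ∫⁻ t in Iic m, ENNReal.ofReal (A * Real.exp (l * t)) =
      ENNReal.ofReal (A * (Real.exp (l * m) / l)) := by
  rw [← ofReal_integral_eq_lintegral_ofReal
    ((integrableOn_exp_mul_Iic (a := l) hl m).const_mul A)
    (Eventually.of_forall fun t => by positivity), integral_const_mul,
    integral_exp_mul_Iic hl]

theorem vol_signs {l : ℝ} (hl : 0 < l) (n : ℕ) (H : (Fin n → Bool) → ℝ) :
    volume {x : Fin n → ℝ | ∀ ε, ∑ j, sg (ε j) * x j ≤ H ε} ≤
      ENNReal.ofReal ((2 / l) ^ n * Real.exp (l * ((∑ ε, H ε) / 2 ^ n))) := by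
  induction n with
  | zero =>
    by_cases h : 0 ≤ H default
    · refine (measure_mono (subset_univ _)).trans ?_
      have h1 : volume (univ : Set (Fin 0 → ℝ)) = 1 := by simp [volume_pi]
      rw [h1, ENNReal.one_le_ofReal]
      simp only [pow_zero, one_mul, div_one, Finset.univ_unique, Finset.sum_singleton,
        Real.one_le_exp_iff]
      exact mul_nonneg hl.le (h.trans_eq (congrArg H (Subsingleton.elim _ _)))
    · have : {x : Fin 0 → ℝ | ∀ ε, ∑ j, sg (ε j) * x j ≤ H ε} = ∅ := by
        refine eq_empty_of_forall_notMem fun x hx => h ?_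
        simpa using hx default
      rw [this]; simp
  | succ n ih =>
    set a := (∑ ε : Fin n → Bool, H (Fin.cons true ε)) / 2 ^ n with ha
    set b := (∑ ε : Fin n → Bool, H (Fin.cons false ε)) / 2 ^ n with hb
    set S : Set (ℝ × (Fin n → ℝ)) := {p | (∀ ε, ∑ j, sg (ε j) * p.2 j ≤ H (Fin.cons true ε) - p.1) ∧
      ∀ ε, ∑ j, sg (ε j) * p.2 j ≤ H (Fin.cons false ε) + p.1} with hS
    have hSm : MeasurableSet S := by
      refine IsClosed.measurableSet ?_
      simp only [hS, ofPred_and, ofPred_forall]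
      exact (isClosed_iInter fun ε => isClosed_le (by fun_prop) (by fun_prop)).inter
        (isClosed_iInter fun ε => isClosed_le (by fun_prop) (by fun_prop))
    have hsub : {x : Fin (n + 1) → ℝ | ∀ ε, ∑ j, sg (ε j) * x j ≤ H ε} ⊆
        MeasurableEquiv.piFinSuccAbove (fun _ => ℝ) 0 ⁻¹' S := by
      intro x hx
      refine ⟨fun ε => ?_, fun ε => ?_⟩
      · have := hx (Fin.cons true ε)
        simp only [Fin.sum_univ_succ, Fin.cons_zero, Fin.cons_succ, sg, if_true] at this
        simp only [sg, MeasurableEquiv.piFinSuccAbove_apply, Fin.insertNthEquiv_zero,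
          Fin.consEquiv_symm_apply, Fin.tail]
        linarith
      · have := hx (Fin.cons false ε)
        simp only [Fin.sum_univ_succ, Fin.cons_zero, Fin.cons_succ, sg, Bool.false_eq_true,
          if_false] at this
        simp only [sg, MeasurableEquiv.piFinSuccAbove_apply, Fin.insertNthEquiv_zero,
          Fin.consEquiv_symm_apply, Fin.tail]
        linarith
    refine (measure_mono hsub).trans ?_
    rw [(volume_preserving_piFinSuccAbove (fun _ : Fin (n + 1) => ℝ) 0).measure_preimage
      hSm.nullMeasurableSet, Measure.volume_eq_prod, Measure.prod_apply hSm]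
    have h2 : (0 : ℝ) < 2 ^ n := by positivity
    have hcard : (Finset.univ : Finset (Fin n → Bool)).card = 2 ^ n := by simp
    have h1 : ∀ t : ℝ, volume (Prod.mk t ⁻¹' S) ≤
        ENNReal.ofReal ((2 / l) ^ n * Real.exp (l * a) * Real.exp (-l * t)) := by
      intro t
      refine le_trans (measure_mono fun x hx => hx.1) ((ih fun ε => H (Fin.cons true ε) - t).trans_eq ?_)
      rw [mul_assoc, ← Real.exp_add, Finset.sum_sub_distrib, Finset.sum_const, hcard, ha]
      congr 3
      simp only [nsmul_eq_mul, Nat.cast_pow, Nat.cast_ofNat]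
      field_simp
      ring
    have h3 : ∀ t : ℝ, volume (Prod.mk t ⁻¹' S) ≤
        ENNReal.ofReal ((2 / l) ^ n * Real.exp (l * b) * Real.exp (l * t)) := by
      intro t
      refine le_trans (measure_mono fun x hx => hx.2) ((ih fun ε => H (Fin.cons false ε) + t).trans_eq ?_)
      rw [mul_assoc, ← Real.exp_add, Finset.sum_add_distrib, Finset.sum_const, hcard, hb]
      congr 3
      simp only [nsmul_eq_mul, Nat.cast_pow, Nat.cast_ofNat]
      field_simp
    rw [← lintegral_add_compl _ (measurableSet_Ioi (a := (a - b) / 2)), compl_Ioi]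
    refine (add_le_add (lintegral_mono fun t => h1 t) (lintegral_mono fun t => h3 t)).trans_eq ?_
    rw [lint_Ioi hl _ _ (by positivity), lint_Iic hl _ _ (by positivity),
      ← ENNReal.ofReal_add (by positivity) (by positivity)]
    congr 1
    have h4 : (∑ ε, H ε) / 2 ^ (n + 1) = (a + b) / 2 := by
      rw [sum_cons, ha, hb]; field_simp; ring
    have h5 : Real.exp (l * a) * Real.exp (-l * ((a - b) / 2)) = Real.exp (l * ((a + b) / 2)) := by
      rw [← Real.exp_add]; congr 1; ring
    have h6 : Real.exp (l * b) * Real.exp (l * ((a - b) / 2)) = Real.exp (l * ((a + b) / 2)) := by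
      rw [← Real.exp_add]; congr 1; ring
    rw [h4, pow_succ]
    calc _ = (2 / l) ^ n * (Real.exp (l * a) * Real.exp (-l * ((a - b) / 2))) / l +
          (2 / l) ^ n * (Real.exp (l * b) * Real.exp (l * ((a - b) / 2))) / l := by ring
      _ = _ := by rw [h5, h6]; ring

/-- The sign vector as a point of Euclidean space. -/
def sv {n : ℕ} (ε : Fin n → Bool) : E n := WithLp.toLp 2 fun j => sg (ε j)

theorem vol_signs_E {n : ℕ} (hn : 0 < n) (D : Set (E n)) (H : (Fin n → Bool) → ℝ) {M : ℝ}
    (hM : 0 < M) (hH : (∑ ε, H ε) / 2 ^ n ≤ M) (hD : ∀ x ∈ D, ∀ ε, ∑ j, sg (ε j) * x j ≤ H ε) :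
    volume D ≤ ENNReal.ofReal ((6 * M / n) ^ n) := by
  have hn' : (0 : ℝ) < n := by exact_mod_cast hn
  have hm : MeasurableSet {x : Fin n → ℝ | ∀ ε, ∑ j, sg (ε j) * x j ≤ H ε} := by
    refine IsClosed.measurableSet ?_
    simp only [ofPred_forall]
    exact isClosed_iInter fun ε => isClosed_le (by fun_prop) (by fun_prop)
  have h1 : D ⊆ (WithLp.ofLp : E n → (Fin n → ℝ)) ⁻¹'
      {x : Fin n → ℝ | ∀ ε, ∑ j, sg (ε j) * x j ≤ H ε} := fun x hx => hD x hx
  refine (measure_mono h1).trans ?_
  rw [(PiLp.volume_preserving_ofLp (Fin n)).measure_preimage hm.nullMeasurableSet]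
  refine (vol_signs (l := n / M) (by positivity) n H).trans (ENNReal.ofReal_le_ofReal ?_)
  have h2 : Real.exp (n / M * ((∑ ε, H ε) / 2 ^ n)) ≤ 3 ^ n := by
    calc _ ≤ Real.exp (n * 1) := by
          refine Real.exp_le_exp.2 ?_
          calc (n : ℝ) / M * ((∑ ε, H ε) / 2 ^ n) ≤ n / M * M := by gcongr
            _ = n * 1 := by field_simp
      _ = Real.exp 1 ^ n := by rw [Real.exp_nat_mul]
      _ ≤ 3 ^ n := by
          gcongr
          exact Real.exp_one_lt_d9.le.trans (by norm_num)
  calc _ ≤ (2 / (n / M)) ^ n * 3 ^ n := by gcongr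
    _ = _ := by
      rw [← mul_pow]; congr 1; field_simp; ring

theorem om_ge {n : ℕ} (hn : 0 < n) : ENNReal.ofReal ((1 / √n) ^ n) ≤ om n := by
  have hn' : (0 : ℝ) < n := by exact_mod_cast hn
  have hs : 0 < √(n : ℝ) := Real.sqrt_pos.2 hn'
  have h1 : (WithLp.ofLp : E n → (Fin n → ℝ)) ⁻¹' (ball 0 (1 / (2 * √n))) ⊆ ball 0 1 := by
    intro x hx
    rw [mem_preimage, mem_ball_zero_iff, pi_norm_lt_iff (by positivity)] at hx
    rw [mem_ball_zero_iff, EuclideanSpace.norm_eq, Real.sqrt_lt' one_pos]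
    calc ∑ i, ‖x.ofLp i‖ ^ 2 ≤ ∑ _i : Fin n, (1 / (2 * √n)) ^ 2 :=
          Finset.sum_le_sum fun i _ => by gcongr; exact (hx i).le
      _ = 1 / 4 := by
          simp only [Finset.sum_const, Finset.card_univ, Fintype.card_fin, nsmul_eq_mul, div_pow,
            mul_pow, Real.sq_sqrt hn'.le]
          field_simp
          norm_num
      _ < 1 ^ 2 := by norm_num
  refine le_trans ?_ (measure_mono h1)
  rw [(PiLp.volume_preserving_ofLp (Fin n)).measure_preimage measurableSet_ball.nullMeasurableSet,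
    Real.volume_pi_ball _ (by positivity)]
  refine le_of_eq ?_
  simp only [Fintype.card_fin]
  congr 2
  field_simp

end Pool.Agent.Lib.MP_8115c2_gt.Log
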